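import Pool.Agent.J4.H44.KL.Hole

/-! # Hole probabilities imply correlations (RH) -/

set_option autoImplicit false

namespace Pool.Agent.J4.H44.KL

open Filter Topology MeasureTheory Set
open SG (ord NZ)
open SP (RHs)
open Pool.Agent.R320.KL (Cs DD XX Nk)

noncomputable section

/-- the grid points -/
def gset (R : ℝ) (K : ℕ) : Set ℝ := ⋃ e : Fin (2 * K + 1), Icc (gr R K e) (gr R K e)

/-- convergence of the hole probabilities for the unions of at most `m` intervals of length at most `δ` -/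
def HM (m : ℕ) (δ : ℝ) : Prop := ∀ a b : Fin m → ℝ, (∀ i, b i - a i ≤ δ) →
  Tendsto (fun T : ℝ => (hole T (⋃ i, Icc (a i) (b i)) : ℝ) / MT T) atTop (𝓝 (HU (⋃ i, Icc (a i) (b i))))

lemma HM_Icc {m : ℕ} (hm : 1 ≤ m) {δ : ℝ} (h : HM m δ) (a b : ℝ) (hab : b - a ≤ δ) :
    Tendsto (fun T : ℝ => (hole T (Icc a b) : ℝ) / MT T) atTop (𝓝 (HU (Icc a b))) := by
  have : Nonempty (Fin m) := ⟨⟨0, hm⟩⟩
  have h1 := h (fun _ => a) (fun _ => b) (fun _ => hab)
  rw [iUnion_const] at h1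
  exact h1

lemma HM_fin {m : ℕ} {δ : ℝ} (hδ : 0 ≤ δ) (h : HM m δ) (I : Finset (Fin m)) (a b : Fin m → ℝ)
    (hab : ∀ i, b i - a i ≤ δ) :
    Tendsto (fun T : ℝ => (hole T (⋃ i ∈ I, Icc (a i) (b i)) : ℝ) / MT T) atTop
      (𝓝 (HU (⋃ i ∈ I, Icc (a i) (b i)))) := by
  classical
  have e : (⋃ i ∈ I, Icc (a i) (b i)) = ⋃ i, Icc (if i ∈ I then a i else 1) (if i ∈ I then b i else 0) := by
    refine iUnion_congr fun i => ?_
    by_cases hi : i ∈ I
    · simp [hi]
    · simp [hi]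
  rw [e]
  refine h _ _ fun i => ?_
  by_cases hi : i ∈ I
  · rw [if_pos hi, if_pos hi]
    exact hab i
  · rw [if_neg hi, if_neg hi]
    linarith

lemma mem_gset {R : ℝ} {K e : ℕ} (he : e ≤ 2 * K) : gr R K e ∈ gset R K := by
  unfold gset
  rw [mem_iUnion]
  exact ⟨⟨e, by omega⟩, le_rfl, le_rfl⟩

/-- a neighbour of a neighbour -/
lemma ps_sub (T : ℝ) (n l l' : ℕ) : ps T l l' = ps T n l' - ps T n l := by
  unfold ps
  ring

lemma ps_neg (T : ℝ) (n l : ℕ) : ps T l n = - ps T n l := by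
  unfold ps
  ring

/-- the number of neighbours in `[-R, R]` -/
def KK (T R : ℝ) (n : ℕ) : ℕ := (nbs T (Icc (-R) R) n).card

/-- zeros with two close neighbours -/
def bad1 (T R h : ℝ) : Finset ℕ := by
  classical exact (Finset.Icc 1 (NZ T)).filter (fun n => ∃ l ∈ nbs T (Icc (-R) R) n,
    ∃ l' ∈ nbs T (Icc (-R) R) n, l ≠ l' ∧ |ps T n l - ps T n l'| ≤ h)

/-- zeros with a close neighbour -/
def close (T h : ℝ) : Finset ℕ := by
  classical exact (Finset.Icc 1 (NZ T)).filter (fun n => ¬ nbs T (Icc (-h) h) n = ∅)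

/-- zeros with a neighbour at a grid point -/
def bad2 (T R : ℝ) (K : ℕ) : Finset ℕ := by
  classical exact (Finset.Icc 1 (NZ T)).filter (fun n => ¬ nbs T (gset R K) n = ∅)

lemma bad1_card (T R h : ℝ) : (bad1 T R h).card ≤ ∑ l ∈ close T h, KK T R l := by
  classical
  have h1 : bad1 T R h ⊆ (close T h).biUnion (fun l => nbs T (Icc (-R) R) l) := by
    intro n hn
    unfold bad1 at hn
    rw [Finset.mem_filter] at hn
    obtain ⟨hnW, l, hl, l', hl', hne, hcl⟩ := hn
    rw [mem_nbs] at hl hl'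
    rw [Finset.mem_biUnion]
    refine ⟨l, ?_, ?_⟩
    · unfold close
      rw [Finset.mem_filter]
      refine ⟨hl.1, fun he => ?_⟩
      have : l' ∈ nbs T (Icc (-h) h) l := by
        rw [mem_nbs]
        refine ⟨hl'.1, hne.symm, ?_⟩
        rw [ps_sub T n l l']
        rw [abs_sub_comm] at hcl
        exact abs_le.1 hcl
      rw [he] at this
      exact absurd this (Finset.notMem_empty _)
    · rw [mem_nbs]
      refine ⟨hnW, hl.2.1.symm, ?_⟩
      rw [ps_neg]
      have := hl.2.2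
      exact ⟨by linarith [this.2], by linarith [this.1]⟩
  exact (Finset.card_le_card h1).trans Finset.card_biUnion_le

lemma cel_sub {R : ℝ} (hR : 0 < R) {K : ℕ} (hK : 0 < K) (c : Fin (2 * K)) : cel R K c ⊆ Icc (-R) R := by
  intro p hp
  unfold cel at hp
  have h1 := gr_mono hR.le K (Nat.zero_le (c : ℕ))
  have h2 := gr_mono hR.le K (show (c : ℕ) + 1 ≤ 2 * K by have := c.2; omega)
  rw [gr_zero] at h1
  rw [gr_last R hK] at h2
  exact ⟨h1.trans hp.1, hp.2.trans h2⟩

open Classical in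
/-- the count of the tuples for the good zeros -/
lemma good_count {m : ℕ} {T R : ℝ} (hR : 0 < R) {K : ℕ} (hK : 0 < K) (x y : Fin m → ℝ) (hx : ∀ i, -R ≤ x i)
    (hy : ∀ i, y i ≤ R) {n : ℕ} (hn : n ∈ Finset.Icc 1 (NZ T)) (h1 : n ∉ bad1 T R (R / K)) (h2 : n ∉ bad2 T R K) :
    (inj (fun i => nbs T (Icc (x i) (y i)) n)).card =
      ((Finset.univ : Finset (Fin m → Fin (2 * K))).filter
        (fun c : Fin m → Fin (2 * K) => Function.Injective c ∧ ∀ i, (nbs T (pc R K (x i) (y i) (c i)) n).Nonempty)).card := by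
  unfold bad1 at h1
  unfold bad2 at h2
  rw [Finset.mem_filter, not_and] at h1 h2
  have h1' := h1 hn
  have h2' := h2 hn
  rw [not_not] at h2'
  refine occ_inj (fun i => nbs T (Icc (x i) (y i)) n) (fun i (c : Fin (2 * K)) => nbs T (pc R K (x i) (y i) c) n)
    ?_ ?_ ?_
  · intro i l
    constructor
    · intro hl
      rw [mem_nbs] at hl
      obtain ⟨c, hc, hpc⟩ := exists_cel hR hK ((hx i).trans hl.2.2.1) (hl.2.2.2.trans (hy i))
      refine ⟨⟨c, hc⟩, ?_⟩
      rw [mem_nbs, pc_eq]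
      exact ⟨hl.1, hl.2.1, hl.2.2, hpc⟩
    · rintro ⟨c, hc⟩
      rw [mem_nbs, pc_eq] at hc
      rw [mem_nbs]
      exact ⟨hc.1, hc.2.1, hc.2.2.1⟩
  · intro i j c d l hl hl'
    rw [mem_nbs, pc_eq] at hl hl'
    by_contra hcd
    obtain ⟨e, he, hpe⟩ := cel_inter hR.le K (fun h => hcd (Fin.ext h)) hl.2.2.2 hl'.2.2.2
    have : l ∈ nbs T (gset R K) n := by
      rw [mem_nbs]
      refine ⟨hl.1, hl.2.1, ?_⟩
      rw [hpe]
      refine mem_gset ?_
      have := max_lt c.2 d.2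
      omega
    rw [h2'] at this
    exact absurd this (Finset.notMem_empty _)
  · intro i j c l l' hl hl'
    rw [mem_nbs, pc_eq] at hl hl'
    by_contra hne
    refine h1' ⟨l, ?_, l', ?_, hne, ?_⟩
    · rw [mem_nbs]
      exact ⟨hl.1, hl.2.1, cel_sub hR hK c hl.2.2.2⟩
    · rw [mem_nbs]
      exact ⟨hl'.1, hl'.2.1, cel_sub hR hK c hl'.2.2.2⟩
    · have q1 := hl.2.2.2
      have q2 := hl'.2.2.2
      unfold cel at q1 q2
      have q3 := gr_succ R K c
      rw [abs_le]
      constructor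
      · linarith [q1.1, q2.2]
      · linarith [q1.2, q2.1]

open Classical in
lemma occ_sum {m : ℕ} (T R : ℝ) (K : ℕ) (x y : Fin m → ℝ) :
    ∑ c ∈ (Finset.univ : Finset (Fin m → Fin (2 * K))).filter (fun c => Function.Injective c),
        occ T (fun i => pc R K (x i) (y i) (c i)) =
      ∑ n ∈ Finset.Icc 1 (NZ T), ((Finset.univ : Finset (Fin m → Fin (2 * K))).filter
        (fun c : Fin m → Fin (2 * K) => Function.Injective c ∧ ∀ i, (nbs T (pc R K (x i) (y i) (c i)) n).Nonempty)).card := by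
  unfold occ
  simp only [Finset.card_filter]
  rw [Finset.sum_comm]
  refine Finset.sum_congr rfl fun n _ => ?_
  rw [Finset.sum_filter]
  refine Finset.sum_congr rfl fun c _ => ?_
  by_cases h1 : Function.Injective c
  · simp [h1]
  · simp [h1]

lemma cs_weight {W : Finset ℕ} {S : Finset ℕ} (hS : S ⊆ W) (f : ℕ → ℝ) {a : ℝ} (ha : 0 < a) :
    ∑ n ∈ S, f n ≤ 1 / (2 * a) * S.card + a / 2 * ∑ n ∈ W, f n ^ 2 := by
  have h1 : ∀ n ∈ S, f n ≤ 1 / (2 * a) + a / 2 * f n ^ 2 := by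
    intro n _
    have e : 1 / (2 * a) + a / 2 * f n ^ 2 - f n = (a * f n - 1) ^ 2 / (2 * a) := by
      field_simp
      ring
    have : 0 ≤ (a * f n - 1) ^ 2 / (2 * a) := by positivity
    linarith
  refine (Finset.sum_le_sum h1).trans ?_
  rw [Finset.sum_add_distrib, Finset.sum_const, nsmul_eq_mul, ← Finset.mul_sum]
  have h2 : ∑ n ∈ S, f n ^ 2 ≤ ∑ n ∈ W, f n ^ 2 :=
    Finset.sum_le_sum_of_subset_of_nonneg hS fun _ _ _ => sq_nonneg _
  have h3 := mul_le_mul_of_nonneg_left h2 (show 0 ≤ a / 2 by positivity)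
  linarith

lemma bad2_card (T R : ℝ) (K : ℕ) : ((bad2 T R K).card : ℝ) ≤
    ∑ e : Fin (2 * K + 1), ((hole T ∅ : ℝ) - hole T (Icc (gr R K e) (gr R K e))) := by
  classical
  have h1 : bad2 T R K ⊆ (Finset.univ : Finset (Fin (2 * K + 1))).biUnion
      (fun e => (Finset.Icc 1 (NZ T)).filter (fun n => ¬ nbs T (Icc (gr R K e) (gr R K e)) n = ∅)) := by
    intro n hn
    unfold bad2 at hn
    rw [Finset.mem_filter] at hn
    obtain ⟨hnW, hne⟩ := hn
    obtain ⟨l, hl⟩ := Finset.nonempty_iff_ne_empty.2 hne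
    rw [mem_nbs] at hl
    obtain ⟨k1, k2, k3⟩ := hl
    unfold gset at k3
    rw [mem_iUnion] at k3
    obtain ⟨e, he⟩ := k3
    rw [Finset.mem_biUnion]
    refine ⟨e, Finset.mem_univ e, ?_⟩
    rw [Finset.mem_filter]
    refine ⟨hnW, fun h0 => ?_⟩
    have : l ∈ nbs T (Icc (gr R K e) (gr R K e)) n := mem_nbs.2 ⟨k1, k2, he⟩
    rw [h0] at this
    exact absurd this (Finset.notMem_empty _)
  have h2 := (Finset.card_le_card h1).trans Finset.card_biUnion_le
  have h3 : ((bad2 T R K).card : ℝ) ≤ ∑ e : Fin (2 * K + 1),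
      (((Finset.Icc 1 (NZ T)).filter (fun n => ¬ nbs T (Icc (gr R K e) (gr R K e)) n = ∅)).card : ℝ) := by
    exact_mod_cast h2
  refine h3.trans (le_of_eq ?_)
  refine Finset.sum_congr rfl fun e _ => ?_
  rw [← hole_compl]

open Classical in
/-- comparison of the tuples of zeros with the tuples of occupied cells -/
lemma compare (hRH : RHs) {m : ℕ} (hm : 1 ≤ m) {δ : ℝ} (_hδ : 0 < δ) (h : HM m δ) (R : ℝ) (hR1 : 1 ≤ R) : ∃ C : ℝ, 0 ≤ C ∧ ∀ x y : Fin m → ℝ, (∀ i, -R ≤ x i) → (∀ i, y i ≤ R) →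
    ∀ K : ℕ, 2 * R ≤ K → 2 * R ≤ K * δ → ∀ᶠ T : ℝ in atTop,
    |(NV T (fun i => Icc (x i) (y i)) : ℝ) / MT T -
      ∑ c ∈ (Finset.univ : Finset (Fin m → Fin (2 * K))).filter (fun c => Function.Injective c),
        (occ T (fun i => pc R K (x i) (y i) (c i)) : ℝ) / MT T| ≤ C * Real.sqrt (Real.sqrt (R / K)) := by
  obtain ⟨E, hE0, hE⟩ := HU_near
  obtain ⟨C1, hC1, h1⟩ := momK hRH (m * 2) R hR1
  obtain ⟨C2, hC2, h2⟩ := momK hRH 2 R hR1
  have hpi := Real.pi_pos
  obtain ⟨D, hD⟩ : ∃ D : ℝ, D = (2 * E + 1) / 2 + Real.pi * C2 + 1 := ⟨_, rfl⟩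
  have hD0 : 0 < D := by rw [hD]; positivity
  refine ⟨(1 + 2 ^ m) * (D / 2 + Real.pi * C1), by positivity, fun x y hx hy K hK hKδ => ?_⟩
  have hR0 : 0 < R := by linarith
  have hKr : (0 : ℝ) < K := by linarith
  have hK0 : 0 < K := by exact_mod_cast hKr
  obtain ⟨η, hη⟩ : ∃ η : ℝ, η = R / K := ⟨_, rfl⟩
  have hη0 : 0 < η := by rw [hη]; positivity
  have hη1 : 2 * η ≤ 1 := by rw [hη, mul_div_assoc', div_le_one hKr]; exact hK
  obtain ⟨a, ha⟩ : ∃ a : ℝ, a = Real.sqrt η := ⟨_, rfl⟩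
  have ha0 : 0 < a := by rw [ha]; exact Real.sqrt_pos.2 hη0
  have ha2 : a ^ 2 = η := by rw [ha]; exact Real.sq_sqrt hη0.le
  obtain ⟨b, hb⟩ : ∃ b : ℝ, b = Real.sqrt a := ⟨_, rfl⟩
  have hb0 : 0 < b := by rw [hb]; exact Real.sqrt_pos.2 ha0
  have hb2 : b ^ 2 = a := by rw [hb]; exact Real.sq_sqrt ha0.le
  rw [← hη, ← ha, ← hb]
  -- the limits
  have hH0 : HU ∅ = 1 := by
    have := hE ∅ 0 le_rfl zero_le_one MeasurableSet.empty (by simp)
    rw [mul_zero] at this
    have := abs_nonpos_iff.1 this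
    linarith
  have hHg : ∀ p : ℝ, HU (Icc p p) = 1 := by
    intro p
    have := hE (Icc p p) 0 le_rfl zero_le_one measurableSet_Icc (by rw [Real.volume_Icc, sub_self])
    rw [mul_zero] at this
    have := abs_nonpos_iff.1 this
    linarith
  have hHc : |HU (Icc (-η) η) - 1| ≤ E * (2 * η) := by
    refine hE _ _ (by positivity) hη1 measurableSet_Icc ?_
    rw [Real.volume_Icc]
    apply le_of_eq
    congr 1
    ring
  have hηδ : η - -η ≤ δ := by
    rw [hη]
    have : R / K - -(R / K) = 2 * R / K := by ring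
    rw [this, div_le_iff₀ hKr]
    linarith
  have l0 := HM_Icc hm h 1 0 (by linarith)
  rw [Icc_eq_empty (by norm_num : ¬ (1 : ℝ) ≤ 0)] at l0
  have l1 := l0.sub (HM_Icc hm h (-η) η hηδ)
  have l2 : Tendsto (fun T : ℝ => ∑ e : Fin (2 * K + 1), ((hole T ∅ : ℝ) / MT T -
      (hole T (Icc (gr R K e) (gr R K e)) : ℝ) / MT T)) atTop (𝓝 0) := by
    have : (0 : ℝ) = ∑ e : Fin (2 * K + 1), (HU ∅ - HU (Icc (gr R K e) (gr R K e))) := by
      symm
      apply Finset.sum_eq_zero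
      intro e _
      rw [hH0, hHg, sub_self]
    rw [this]
    exact tendsto_finsetSum _ fun e _ => l0.sub (HM_Icc hm h _ _ (by linarith))
  rw [hH0] at l1
  have l1' : ∀ᶠ T : ℝ in atTop, (hole T ∅ : ℝ) / MT T - (hole T (Icc (-η) η) : ℝ) / MT T ≤ (2 * E + 1) * η := by
    have hlt : 1 - HU (Icc (-η) η) < (2 * E + 1) * η := by
      have := (abs_le.1 hHc).1
      linarith
    filter_upwards [l1.eventually_lt_const hlt] with T hT
    exact hT.le
  have l2' : ∀ᶠ T : ℝ in atTop, ∑ e : Fin (2 * K + 1), ((hole T ∅ : ℝ) / MT T -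
      (hole T (Icc (gr R K e) (gr R K e)) : ℝ) / MT T) ≤ a := by
    filter_upwards [l2.eventually_lt_const ha0] with T hT
    exact hT.le
  filter_upwards [h1, h2, l1', l2', eventually_gt_atTop 1] with T k1 k2 k3 k4 hT
  have hM := MT_pos hT
  -- the moments
  have hKK : ∀ n, ((Cs T (-R) R n).card : ℝ) = KK T R n := by
    intro n
    rw [Cs_nbs]
    rfl
  simp only [hKK] at k1 k2
  rw [MT_eq] at k1 k2
  -- bad zeros
  have c1 : ((close T η).card : ℝ) ≤ (2 * E + 1) * η * MT T := by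
    have e1 : ((close T η).card : ℝ) = (hole T ∅ : ℝ) - hole T (Icc (-η) η) := by
      rw [← hole_compl]
      rfl
    rw [← sub_div, div_le_iff₀ hM] at k3
    rw [e1]
    exact k3
  have c2 : ((bad2 T R K).card : ℝ) ≤ a * MT T := by
    have e1 := bad2_card T R K
    simp only [← sub_div] at k4
    rw [← Finset.sum_div, div_le_iff₀ hM] at k4
    exact e1.trans k4
  have c3 : ((bad1 T R η).card : ℝ) ≤ a * ((2 * E + 1) / 2 + Real.pi * C2) * MT T := by
    have e1 : ((bad1 T R η).card : ℝ) ≤ ∑ l ∈ close T η, (KK T R l : ℝ) := by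
      exact_mod_cast bad1_card T R η
    have hsub : close T η ⊆ Finset.Icc 1 (NZ T) := Finset.filter_subset _ _
    have e2 := cs_weight hsub (fun l => (KK T R l : ℝ)) ha0
    have e3 : 1 / (2 * a) * ((close T η).card : ℝ) ≤ a * ((2 * E + 1) / 2) * MT T := by
      calc 1 / (2 * a) * ((close T η).card : ℝ) ≤ 1 / (2 * a) * ((2 * E + 1) * η * MT T) :=
            mul_le_mul_of_nonneg_left c1 (by positivity)
        _ = _ := by rw [← ha2]; field_simp
    have e4 : a / 2 * ∑ n ∈ Finset.Icc 1 (NZ T), (KK T R n : ℝ) ^ 2 ≤ a * (Real.pi * C2) * MT T := by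
      calc a / 2 * ∑ n ∈ Finset.Icc 1 (NZ T), (KK T R n : ℝ) ^ 2 ≤ a / 2 * (C2 * (2 * Real.pi * MT T)) :=
            mul_le_mul_of_nonneg_left k2 (by positivity)
        _ = _ := by ring
    calc _ ≤ _ := e1.trans e2
      _ ≤ a * ((2 * E + 1) / 2) * MT T + a * (Real.pi * C2) * MT T := add_le_add e3 e4
      _ = _ := by ring
  obtain ⟨bad, hbad⟩ : ∃ bad : Finset ℕ, bad = bad1 T R η ∪ bad2 T R K := ⟨_, rfl⟩
  have c4 : (bad.card : ℝ) ≤ a * D * MT T := by
    have e1 : (bad.card : ℝ) ≤ (bad1 T R η).card + (bad2 T R K).card := by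
      rw [hbad]
      exact_mod_cast Finset.card_union_le _ _
    calc (bad.card : ℝ) ≤ a * ((2 * E + 1) / 2 + Real.pi * C2) * MT T + a * MT T := by linarith
      _ = _ := by rw [hD]; ring
  have hbadW : bad ⊆ Finset.Icc 1 (NZ T) := by
    rw [hbad]
    exact Finset.union_subset (Finset.filter_subset _ _) (Finset.filter_subset _ _)
  -- the difference
  have e1 : (NV T (fun i => Icc (x i) (y i)) : ℝ) / MT T -
      ∑ c ∈ (Finset.univ : Finset (Fin m → Fin (2 * K))).filter (fun c => Function.Injective c),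
        (occ T (fun i => pc R K (x i) (y i) (c i)) : ℝ) / MT T =
      (∑ n ∈ Finset.Icc 1 (NZ T), (((inj (fun i => nbs T (Icc (x i) (y i)) n)).card : ℝ) -
        ((Finset.univ : Finset (Fin m → Fin (2 * K))).filter
        (fun c : Fin m → Fin (2 * K) => Function.Injective c ∧ ∀ i, (nbs T (pc R K (x i) (y i) (c i)) n).Nonempty)).card)) / MT T := by
    rw [← Finset.sum_div, ← sub_div, Finset.sum_sub_distrib]
    congr 2
    · unfold NV
      push_cast
      rfl
    · have := occ_sum T R K x y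
      exact_mod_cast this
  rw [e1, abs_div, abs_of_pos hM, div_le_iff₀ hM]
  refine (Finset.abs_sum_le_sum_abs _ _).trans ?_
  have e2 : ∑ n ∈ Finset.Icc 1 (NZ T), |((inj (fun i => nbs T (Icc (x i) (y i)) n)).card : ℝ) -
        ((Finset.univ : Finset (Fin m → Fin (2 * K))).filter
        (fun c : Fin m → Fin (2 * K) => Function.Injective c ∧ ∀ i, (nbs T (pc R K (x i) (y i) (c i)) n).Nonempty)).card| =
      ∑ n ∈ bad, |((inj (fun i => nbs T (Icc (x i) (y i)) n)).card : ℝ) -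
        ((Finset.univ : Finset (Fin m → Fin (2 * K))).filter
        (fun c : Fin m → Fin (2 * K) => Function.Injective c ∧ ∀ i, (nbs T (pc R K (x i) (y i) (c i)) n).Nonempty)).card| := by
    symm
    apply Finset.sum_subset hbadW
    intro n hn hnb
    rw [hbad, Finset.mem_union, not_or] at hnb
    rw [hη] at hnb
    rw [good_count hR0 hK0 x y hx hy hn hnb.1 hnb.2, sub_self, abs_zero]
  rw [e2]
  have e3 : ∀ n ∈ bad, |((inj (fun i => nbs T (Icc (x i) (y i)) n)).card : ℝ) -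
        ((Finset.univ : Finset (Fin m → Fin (2 * K))).filter
        (fun c : Fin m → Fin (2 * K) => Function.Injective c ∧ ∀ i, (nbs T (pc R K (x i) (y i) (c i)) n).Nonempty)).card| ≤
      (1 + 2 ^ m) * (KK T R n : ℝ) ^ m := by
    intro n _
    have q1 : ((inj (fun i => nbs T (Icc (x i) (y i)) n)).card : ℝ) ≤ (KK T R n : ℝ) ^ m := by
      have := inj_le_pow (T := T) x y hx hy n
      simp only [Cs_nbs] at this
      exact this
    have q2 : (((Finset.univ : Finset (Fin m → Fin (2 * K))).filter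
        (fun c : Fin m → Fin (2 * K) => Function.Injective c ∧ ∀ i, (nbs T (pc R K (x i) (y i) (c i)) n).Nonempty)).card : ℝ) ≤
        2 ^ m * (KK T R n : ℝ) ^ m := by
      have := occ_le hR0 hK0 (ps T n) (fun i (c : Fin (2 * K)) => nbs T (pc R K (x i) (y i) c) n)
        (nbs T (Icc (-R) R) n) (fun i c => nbs_mono (by
          rw [pc_eq]
          exact inter_subset_right.trans (cel_sub hR0 hK0 c)) n) (fun i c l hl => by
            rw [mem_nbs, pc_eq] at hl
            exact hl.2.2.2)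
      rw [← mul_pow]
      exact_mod_cast this
    have q3 : (0 : ℝ) ≤ ((inj (fun i => nbs T (Icc (x i) (y i)) n)).card : ℝ) := Nat.cast_nonneg _
    have q4 : (0 : ℝ) ≤ (((Finset.univ : Finset (Fin m → Fin (2 * K))).filter
        (fun c : Fin m → Fin (2 * K) => Function.Injective c ∧ ∀ i, (nbs T (pc R K (x i) (y i) (c i)) n).Nonempty)).card : ℝ) :=
      Nat.cast_nonneg _
    rw [abs_le]
    constructor
    · linarith
    · linarith
  refine (Finset.sum_le_sum e3).trans ?_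
  rw [← Finset.mul_sum]
  have e4 := cs_weight hbadW (fun n => (KK T R n : ℝ) ^ m) hb0
  have e5 : 1 / (2 * b) * (bad.card : ℝ) ≤ b * (D / 2) * MT T := by
    calc 1 / (2 * b) * (bad.card : ℝ) ≤ 1 / (2 * b) * (a * D * MT T) :=
          mul_le_mul_of_nonneg_left c4 (by positivity)
      _ = _ := by rw [← hb2]; field_simp
  have e6 : b / 2 * ∑ n ∈ Finset.Icc 1 (NZ T), ((KK T R n : ℝ) ^ m) ^ 2 ≤ b * (Real.pi * C1) * MT T := by
    simp only [← pow_mul]
    calc b / 2 * ∑ n ∈ Finset.Icc 1 (NZ T), (KK T R n : ℝ) ^ (m * 2) ≤ b / 2 * (C1 * (2 * Real.pi * MT T)) :=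
          mul_le_mul_of_nonneg_left k1 (by positivity)
      _ = _ := by ring
  calc (1 + 2 ^ m) * ∑ n ∈ bad, (KK T R n : ℝ) ^ m ≤
      (1 + 2 ^ m) * (b * (D / 2) * MT T + b * (Real.pi * C1) * MT T) :=
        mul_le_mul_of_nonneg_left (e4.trans (add_le_add e5 e6)) (by positivity)
    _ = _ := by ring

/-- **Hole probabilities imply correlations.** -/
theorem hole_corr (hRH : RHs) {m : ℕ} (hm : 1 ≤ m) {δ : ℝ} (hδ : 0 < δ) (h : HM m δ) (x y : Fin m → ℝ) :
    Good (fun i => Icc (x i) (y i)) := by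
  classical
  obtain ⟨R, hR⟩ : ∃ R : ℝ, R = 1 + ∑ i, (|x i| + |y i|) := ⟨_, rfl⟩
  have hs : ∀ i, |x i| + |y i| ≤ R := by
    intro i
    have h1 : |x i| + |y i| ≤ ∑ i, (|x i| + |y i|) :=
      Finset.single_le_sum (f := fun i => |x i| + |y i|) (fun j _ => by positivity) (Finset.mem_univ i)
    linarith
  have hR1 : 1 ≤ R := by
    rw [hR]
    have : 0 ≤ ∑ i, (|x i| + |y i|) := by positivity
    linarith
  have hx : ∀ i, -R ≤ x i := by
    intro i
    have := neg_abs_le (x i)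
    have := abs_nonneg (y i)
    linarith [hs i]
  have hy : ∀ i, y i ≤ R := by
    intro i
    have := le_abs_self (y i)
    have := abs_nonneg (x i)
    linarith [hs i]
  obtain ⟨C, hC, hcmp⟩ := compare hRH hm hδ h R hR1
  obtain ⟨C', hC', hcell⟩ := cells_sum m R hR1
  unfold Good
  rw [Metric.tendsto_nhds]
  intro ε hε
  -- the mesh
  have hlim : Tendsto (fun K : ℕ => C * Real.sqrt (Real.sqrt (R / K)) + C' * (R / K)) atTop (𝓝 0) := by
    have h1 : Tendsto (fun K : ℕ => R / (K : ℝ)) atTop (𝓝 0) := tendsto_const_div_atTop_nhds_zero_nat R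
    have h2 : Tendsto (fun K : ℕ => Real.sqrt (Real.sqrt (R / K))) atTop (𝓝 0) := by
      have := (Real.continuous_sqrt.comp Real.continuous_sqrt).tendsto 0
      simp only [Function.comp, Real.sqrt_zero] at this
      exact this.comp h1
    have := (h2.const_mul C).add (h1.const_mul C')
    rw [mul_zero, mul_zero, add_zero] at this
    exact this
  obtain ⟨K, hK1, hK2, hK3⟩ := ((hlim.eventually_lt_const (show (0 : ℝ) < ε / 2 by linarith)).and
    ((tendsto_natCast_atTop_atTop.eventually_ge_atTop (2 * R)).and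
      (tendsto_natCast_atTop_atTop.eventually_ge_atTop (2 * R / δ)))).exists
  have hK4 : 2 * R ≤ K * δ := by
    rw [div_le_iff₀ hδ] at hK3
    exact hK3
  have hKR : R ≤ K := by linarith
  -- the sum over the cells converges
  obtain ⟨S, hS⟩ : ∃ S : ℝ, S = ∑ c ∈ (Finset.univ : Finset (Fin m → Fin (2 * K))).filter
    (fun c => Function.Injective c), ∑ I : Finset (Fin m), (-1 : ℝ) ^ I.card *
      HU (⋃ i ∈ I, pc R K (x i) (y i) (c i)) := ⟨_, rfl⟩
  have hocc : Tendsto (fun T : ℝ => ∑ c ∈ (Finset.univ : Finset (Fin m → Fin (2 * K))).filter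
      (fun c => Function.Injective c), (occ T (fun i => pc R K (x i) (y i) (c i)) : ℝ) / MT T) atTop (𝓝 S) := by
    rw [hS]
    refine tendsto_finsetSum _ fun c _ => ?_
    have e1 : ∀ T : ℝ, (occ T (fun i => pc R K (x i) (y i) (c i)) : ℝ) / MT T =
        ∑ I : Finset (Fin m), (-1 : ℝ) ^ I.card * ((hole T (⋃ i ∈ I, pc R K (x i) (y i) (c i)) : ℝ) / MT T) := by
      intro T
      rw [occ_eq, Finset.sum_div]
      refine Finset.sum_congr rfl fun I _ => ?_
      ring
    simp only [e1]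
    refine tendsto_finsetSum _ fun I _ => ?_
    refine (HM_fin hδ.le h I _ _ fun i => ?_).const_mul _
    have h1 := gr_succ R K (c i)
    have h2 := min_le_right (y i) (gr R K (c i + 1))
    have h3 := le_max_right (x i) (gr R K (c i))
    have h4 : R / K ≤ δ := by
      rw [div_le_iff₀ (by linarith)]
      linarith
    linarith
  have g1 := hcell x y hx hy K hKR
  rw [← hS] at g1
  filter_upwards [hcmp x y hx hy K hK2 hK4, (Metric.tendsto_nhds.1 hocc) (ε / 2) (by linarith)] with T k1 k2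
  rw [Real.dist_eq] at k2 ⊢
  have e2 : JV (fun i => Icc (x i) (y i)) = ∫ u in Set.univ.pi (fun i => Icc (x i) (y i)), (SM u).det := rfl
  rw [e2]
  obtain ⟨q1, q2⟩ := abs_le.1 k1
  obtain ⟨q3, q4⟩ := abs_lt.1 k2
  obtain ⟨q5, q6⟩ := abs_le.1 g1
  rw [abs_lt]
  constructor <;> linarith

end

end Pool.Agent.J4.H44.KL
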