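import Pool.Agent.J4.H44.KL.Ie

/-! # Grids, and the sum over the cells of the inclusion-exclusion sums -/

set_option autoImplicit false

namespace Pool.Agent.J4.H44.KL

open MeasureTheory Set Filter Topology

noncomputable section

/-- grid points in `[-R, R]` -/
def gr (R : ℝ) (K c : ℕ) : ℝ := -R + c * (R / K)

/-- cells of the grid -/
def cel (R : ℝ) (K c : ℕ) : Set ℝ := Icc (gr R K c) (gr R K (c + 1))

/-- the part of a cell in the interval `[x, y]` -/
def pc (R : ℝ) (K : ℕ) (x y : ℝ) (c : ℕ) : Set ℝ := Icc (max x (gr R K c)) (min y (gr R K (c + 1)))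

lemma pc_eq (R : ℝ) (K : ℕ) (x y : ℝ) (c : ℕ) : pc R K x y c = Icc x y ∩ cel R K c := by
  unfold pc cel
  rw [Icc_inter_Icc]

lemma gr_mono {R : ℝ} (hR : 0 ≤ R) (K : ℕ) {c d : ℕ} (h : c ≤ d) : gr R K c ≤ gr R K d := by
  unfold gr
  have h1 : (c : ℝ) ≤ d := by exact_mod_cast h
  have h2 : 0 ≤ R / K := by positivity
  nlinarith

lemma gr_succ (R : ℝ) (K c : ℕ) : gr R K (c + 1) - gr R K c = R / K := by
  unfold gr
  push_cast
  ring

lemma gr_zero (R : ℝ) (K : ℕ) : gr R K 0 = -R := by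
  unfold gr
  simp

lemma gr_last (R : ℝ) {K : ℕ} (hK : 0 < K) : gr R K (2 * K) = R := by
  unfold gr
  have : (K : ℝ) ≠ 0 := by positivity
  push_cast
  field_simp
  ring

lemma cel_inter {R : ℝ} (hR : 0 ≤ R) (K : ℕ) {c d : ℕ} (h : c ≠ d) {p : ℝ} (hc : p ∈ cel R K c)
    (hd : p ∈ cel R K d) : ∃ e, e ≤ max c d ∧ p = gr R K e := by
  unfold cel at hc hd
  rcases Nat.lt_or_gt_of_ne h with h1 | h1
  · refine ⟨d, le_max_right _ _, le_antisymm ?_ hd.1⟩
    exact hc.2.trans (gr_mono hR K h1)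
  · refine ⟨c, le_max_left _ _, le_antisymm ?_ hc.1⟩
    exact hd.2.trans (gr_mono hR K h1)

/-- every point of `[-R, R]` is in a cell -/
lemma exists_cel {R : ℝ} (hR : 0 < R) {K : ℕ} (hK : 0 < K) {p : ℝ} (h1 : -R ≤ p) (h2 : p ≤ R) :
    ∃ c : ℕ, c < 2 * K ∧ p ∈ cel R K c := by
  by_cases h : p = R
  · refine ⟨2 * K - 1, by omega, ?_⟩
    unfold cel
    have e : 2 * K - 1 + 1 = 2 * K := by omega
    rw [e, gr_last R hK, h]
    refine ⟨?_, le_rfl⟩
    have := gr_mono hR.le K (show 2 * K - 1 ≤ 2 * K by omega)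
    rwa [gr_last R hK] at this
  · have hp : p < R := lt_of_le_of_ne h2 h
    have hKr : (0 : ℝ) < K := by exact_mod_cast hK
    have hh : 0 < R / K := by positivity
    have q0 : 0 ≤ (p + R) / (R / K) := div_nonneg (by linarith) hh.le
    have q1 := Nat.floor_le q0
    have q2 := Nat.lt_floor_add_one ((p + R) / (R / K))
    obtain ⟨c, hc⟩ : ∃ c : ℕ, c = ⌊(p + R) / (R / K)⌋₊ := ⟨_, rfl⟩
    rw [← hc] at q1 q2
    rw [le_div_iff₀ hh] at q1
    rw [div_lt_iff₀ hh] at q2
    refine ⟨c, ?_, ?_⟩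
    · have h3 : (c : ℝ) * (R / K) < 2 * K * (R / K) := by
        have : 2 * (K : ℝ) * (R / K) = 2 * R := by field_simp
        rw [this]
        linarith
      have h4 : (c : ℝ) < 2 * K := lt_of_mul_lt_mul_right h3 hh.le
      exact_mod_cast h4
    · unfold cel gr
      push_cast
      constructor <;> linarith

lemma pc_ind {R : ℝ} (hR : 0 < R) {K : ℕ} (hK : 0 < K) {x y : ℝ} (hx : -R ≤ x) (hy : y ≤ R) {p : ℝ}
    (hp : ∀ e, e ≤ 2 * K → p ≠ gr R K e) :
    (Icc x y).indicator (fun _ => (1 : ℝ)) p =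
      ∑ c : Fin (2 * K), (pc R K x y c).indicator (fun _ => (1 : ℝ)) p := by
  by_cases h : p ∈ Icc x y
  · rw [indicator_of_mem h]
    obtain ⟨c, hc, hpc⟩ := exists_cel hR hK (hx.trans h.1) (h.2.trans hy)
    rw [Finset.sum_eq_single (⟨c, hc⟩ : Fin (2 * K))]
    · rw [indicator_of_mem]
      rw [pc_eq]
      exact ⟨h, hpc⟩
    · intro d _ hd
      apply indicator_of_notMem
      rw [pc_eq]
      rintro ⟨_, hpd⟩
      have hne : c ≠ (d : ℕ) := fun h => hd (Fin.ext h.symm)
      obtain ⟨e, he, hpe⟩ := cel_inter hR.le K hne hpc hpd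
      refine hp e ?_ hpe
      have := d.2
      have := max_lt hc d.2
      omega
    · intro h
      exact absurd (Finset.mem_univ _) h
  · rw [indicator_of_notMem h]
    symm
    apply Finset.sum_eq_zero
    intro c _
    apply indicator_of_notMem
    rw [pc_eq]
    exact fun h' => h h'.1

lemma pc_ae {R : ℝ} (hR : 0 < R) {K : ℕ} (hK : 0 < K) {x y : ℝ} (hx : -R ≤ x) (hy : y ≤ R) :
    ∀ᵐ p : ℝ, (Icc x y).indicator (fun _ => (1 : ℝ)) p =
      ∑ c : Fin (2 * K), (pc R K x y c).indicator (fun _ => (1 : ℝ)) p := by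
  have h1 : volume (((Finset.range (2 * K + 1)).image (gr R K) : Finset ℝ) : Set ℝ) = 0 :=
    (Finset.finite_toSet _).measure_zero _
  filter_upwards [measure_eq_zero_iff_ae_notMem.1 h1] with p hp
  refine pc_ind hR hK hx hy fun e he hpe => hp ?_
  rw [Finset.mem_coe, Finset.mem_image]
  exact ⟨e, Finset.mem_range.2 (by omega), hpe.symm⟩

lemma pc_vol {R : ℝ} (K : ℕ) (x y : ℝ) (c : ℕ) : volume (pc R K x y c) ≤ ENNReal.ofReal (R / K) := by
  rw [pc_eq]
  refine (measure_mono inter_subset_right).trans ?_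
  unfold cel
  rw [Real.volume_Icc, gr_succ]

lemma pc_null {R : ℝ} (hR : 0 ≤ R) (K : ℕ) (x y x' y' : ℝ) {c d : ℕ} (h : c ≠ d) :
    volume (pc R K x y c ∩ pc R K x' y' d) = 0 := by
  refine measure_mono_null ?_ (((Finset.range (max c d + 1)).image (gr R K)).finite_toSet.measure_zero volume)
  rw [pc_eq, pc_eq]
  rintro p ⟨⟨_, h1⟩, _, h2⟩
  obtain ⟨e, he, hpe⟩ := cel_inter hR K h h1 h2
  rw [Finset.mem_coe, Finset.mem_image]
  exact ⟨e, Finset.mem_range.2 (by omega), hpe.symm⟩

/-- most functions are injective -/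
lemma card_not_inj (m N : ℕ) : ((Finset.univ : Finset (Fin m → Fin N)).filter
    (fun c => ¬ Function.Injective c)).card * N ≤ m ^ 2 * N ^ m := by
  classical
  have h1 : (Finset.univ : Finset (Fin m → Fin N)).filter (fun c => ¬ Function.Injective c) ⊆
      ((Finset.univ : Finset (Fin m × Fin m)).filter (fun z => z.1 ≠ z.2)).biUnion
        (fun z => Finset.univ.filter (fun c : Fin m → Fin N => c z.1 = c z.2)) := by
    intro c hc
    rw [Finset.mem_filter] at hc
    have h2 := hc.2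
    unfold Function.Injective at h2
    push Not at h2
    obtain ⟨i, j, hij, hne⟩ := h2
    rw [Finset.mem_biUnion]
    exact ⟨(i, j), by simpa using hne, by simpa using hij⟩
  have h2 : ∀ z ∈ (Finset.univ : Finset (Fin m × Fin m)).filter (fun z => z.1 ≠ z.2),
      (Finset.univ.filter (fun c : Fin m → Fin N => c z.1 = c z.2)).card * N ≤ N ^ m := by
    intro z hz
    rw [Finset.mem_filter] at hz
    have h3 : ((Finset.univ.filter (fun c : Fin m → Fin N => c z.1 = c z.2)) ×ˢ (Finset.univ : Finset (Fin N))).card ≤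
        (Finset.univ : Finset (Fin m → Fin N)).card := by
      refine Finset.card_le_card_of_injOn (fun w => Function.update w.1 z.2 w.2) (fun _ _ => Finset.mem_coe.2 (Finset.mem_univ _)) ?_
      rintro ⟨c, a⟩ hca ⟨d, b⟩ hdb hcd
      rw [Finset.mem_coe, Finset.mem_product, Finset.mem_filter] at hca hdb
      have hc := hca.1.2
      have hd := hdb.1.2
      simp only at hc hd hcd
      have hab : a = b := by
        have := congrFun hcd z.2
        simpa using this
      have hoff : ∀ i, i ≠ z.2 → c i = d i := by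
        intro i hi
        have := congrFun hcd i
        rwa [Function.update_of_ne hi, Function.update_of_ne hi] at this
      have hcd' : c = d := by
        funext i
        by_cases hi : i = z.2
        · rw [hi, ← hc, ← hd]
          exact hoff z.1 hz.2
        · exact hoff i hi
      rw [hab, hcd']
    rw [Finset.card_product, Finset.card_univ, Fintype.card_fin, Finset.card_univ, Fintype.card_fun,
      Fintype.card_fin, Fintype.card_fin] at h3
    exact h3
  calc _ ≤ (∑ z ∈ (Finset.univ : Finset (Fin m × Fin m)).filter (fun z => z.1 ≠ z.2),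
        (Finset.univ.filter (fun c : Fin m → Fin N => c z.1 = c z.2)).card) * N :=
        Nat.mul_le_mul_right _ ((Finset.card_le_card h1).trans Finset.card_biUnion_le)
    _ = ∑ z ∈ (Finset.univ : Finset (Fin m × Fin m)).filter (fun z => z.1 ≠ z.2),
        (Finset.univ.filter (fun c : Fin m → Fin N => c z.1 = c z.2)).card * N := Finset.sum_mul _ _ _
    _ ≤ ∑ _z ∈ (Finset.univ : Finset (Fin m × Fin m)).filter (fun z => z.1 ≠ z.2), N ^ m :=
        Finset.sum_le_sum h2
    _ ≤ ∑ _z ∈ (Finset.univ : Finset (Fin m × Fin m)), N ^ m :=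
        Finset.sum_le_sum_of_subset (Finset.filter_subset _ _)
    _ = m ^ 2 * N ^ m := by
        rw [Finset.sum_const, Finset.card_univ, Fintype.card_prod, Fintype.card_fin, smul_eq_mul, sq]

open Classical in
/-- the sum over the cells -/
lemma cells_sum (m : ℕ) (R : ℝ) (hR : 1 ≤ R) : ∃ C : ℝ, 0 ≤ C ∧ ∀ (x y : Fin m → ℝ),
    (∀ i, -R ≤ x i) → (∀ i, y i ≤ R) → ∀ K : ℕ, R ≤ K →
    |∑ c ∈ (Finset.univ : Finset (Fin m → Fin (2 * K))).filter (fun c => Function.Injective c),
        ∑ I : Finset (Fin m), (-1 : ℝ) ^ I.card * HU (⋃ i ∈ I, pc R K (x i) (y i) (c i)) -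
      ∫ u in Set.univ.pi (fun i => Icc (x i) (y i)), (SM u).det| ≤ C * (R / K) := by
  obtain ⟨C, hC, hs⟩ := hole_sum m
  refine ⟨C * (2 * R) ^ m + m ^ 2 * (2 * R) ^ m, by positivity, fun x y hx hy K hK => ?_⟩
  have hR0 : 0 < R := by linarith
  have hKr : (0 : ℝ) < K := by linarith
  have hK0 : 0 < K := by exact_mod_cast hKr
  obtain ⟨h, hh⟩ : ∃ h : ℝ, h = R / K := ⟨_, rfl⟩
  have hh0 : 0 < h := by rw [hh]; positivity
  have hh1 : h ≤ 1 := by rw [hh, div_le_one hKr]; exact hK
  have h2K : (2 * (K : ℝ)) * h = 2 * R := by rw [hh]; field_simp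
  have e1 : ∫ u in Set.univ.pi (fun i => Icc (x i) (y i)), (SM u).det =
      ∑ c : Fin m → Fin (2 * K), ∫ u in Set.univ.pi (fun i => pc R K (x i) (y i) (c i)), (SM u).det := by
    have := pi_ae_sum (fun i => Icc (x i) (y i)) (fun i => measurableSet_Icc)
      (fun _ => (Finset.univ : Finset (Fin (2 * K)))) (fun i c => pc R K (x i) (y i) c)
      (fun _ _ => measurableSet_Icc) (fun i c => ((pc_vol K _ _ _).trans_lt ENNReal.ofReal_lt_top).ne)
      (fun i => pc_ae hR0 hK0 (hx i) (hy i))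
    rw [this]
    refine Finset.sum_congr ?_ fun _ _ => rfl
    rw [Fintype.piFinset_univ]
  rw [e1, ← Finset.sum_filter_add_sum_filter_not Finset.univ (fun c : Fin m → Fin (2 * K) => Function.Injective c),
    ← sub_sub, ← Finset.sum_sub_distrib]
  have k1 : |∑ c ∈ (Finset.univ : Finset (Fin m → Fin (2 * K))).filter (fun c => Function.Injective c),
      (∑ I : Finset (Fin m), (-1 : ℝ) ^ I.card * HU (⋃ i ∈ I, pc R K (x i) (y i) (c i)) -
        ∫ u in Set.univ.pi (fun i => pc R K (x i) (y i) (c i)), (SM u).det)| ≤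
      C * (2 * R) ^ m * h := by
    refine (Finset.abs_sum_le_sum_abs _ _).trans ?_
    have h1 : ∀ c ∈ (Finset.univ : Finset (Fin m → Fin (2 * K))).filter (fun c => Function.Injective c),
        |∑ I : Finset (Fin m), (-1 : ℝ) ^ I.card * HU (⋃ i ∈ I, pc R K (x i) (y i) (c i)) -
        ∫ u in Set.univ.pi (fun i => pc R K (x i) (y i) (c i)), (SM u).det| ≤ C * h ^ (m + 1) := by
      intro c hc
      rw [Finset.mem_filter] at hc
      refine hs (fun i => pc R K (x i) (y i) (c i)) h hh0.le hh1 (fun _ => measurableSet_Icc)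
        (fun i => by rw [hh]; exact pc_vol K _ _ _) (fun i j hij => ?_)
      exact pc_null hR0.le K _ _ _ _ fun he => hij (hc.2 (Fin.ext he))
    refine (Finset.sum_le_sum h1).trans ?_
    rw [Finset.sum_const, nsmul_eq_mul]
    have h2 : (((Finset.univ : Finset (Fin m → Fin (2 * K))).filter (fun c => Function.Injective c)).card : ℝ) ≤
        (2 * K) ^ m := by
      have := Finset.card_filter_le (Finset.univ : Finset (Fin m → Fin (2 * K))) (fun c => Function.Injective c)
      rw [Finset.card_univ, Fintype.card_fun, Fintype.card_fin, Fintype.card_fin] at this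
      exact_mod_cast this
    calc _ ≤ (2 * (K : ℝ)) ^ m * (C * h ^ (m + 1)) := mul_le_mul_of_nonneg_right h2 (by positivity)
      _ = C * (2 * (K : ℝ) * h) ^ m * h := by rw [mul_pow (2 * (K : ℝ)) h m, pow_succ]; ring
      _ = _ := by rw [h2K]
  have k2 : |∑ c ∈ (Finset.univ : Finset (Fin m → Fin (2 * K))).filter (fun c => ¬ Function.Injective c),
      ∫ u in Set.univ.pi (fun i => pc R K (x i) (y i) (c i)), (SM u).det| ≤ m ^ 2 * (2 * R) ^ m * h := by
    refine (Finset.abs_sum_le_sum_abs _ _).trans ?_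
    have h1 : ∀ c ∈ (Finset.univ : Finset (Fin m → Fin (2 * K))).filter (fun c => ¬ Function.Injective c),
        |∫ u in Set.univ.pi (fun i => pc R K (x i) (y i) (c i)), (SM u).det| ≤ h ^ m := by
      intro c _
      obtain ⟨q1, q2⟩ := pi_int_bd (fun i => pc R K (x i) (y i) (c i)) (fun _ => measurableSet_Icc)
        (fun _ => h) (fun i => by rw [hh]; exact pc_vol K _ _ _) (fun _ => hh0.le)
      rw [Finset.prod_const, Finset.card_univ, Fintype.card_fin] at q2
      rw [abs_of_nonneg q1]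
      exact q2
    refine (Finset.sum_le_sum h1).trans ?_
    rw [Finset.sum_const, nsmul_eq_mul]
    obtain ⟨Q, hQ⟩ : ∃ Q : ℝ, Q = (((Finset.univ : Finset (Fin m → Fin (2 * K))).filter
      (fun c => ¬ Function.Injective c)).card : ℝ) := ⟨_, rfl⟩
    rw [← hQ]
    have h2 : Q * (2 * K) ≤ m ^ 2 * (2 * (K : ℝ)) ^ m := by
      rw [hQ]
      exact_mod_cast card_not_inj m (2 * K)
    have h3 : Q * (2 * K) * h ^ m ≤ m ^ 2 * (2 * R) ^ m := by
      calc Q * (2 * K) * h ^ m ≤ (m ^ 2 * (2 * (K : ℝ)) ^ m) * h ^ m :=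
            mul_le_mul_of_nonneg_right h2 (by positivity)
        _ = m ^ 2 * (2 * (K : ℝ) * h) ^ m := by rw [mul_pow (2 * (K : ℝ)) h m]; ring
        _ = _ := by rw [h2K]
    have hQ0 : 0 ≤ Q * h ^ m := by rw [hQ]; positivity
    have h4 : Q * h ^ m ≤ Q * h ^ m * (2 * R) := le_mul_of_one_le_right hQ0 (by linarith)
    calc Q * h ^ m ≤ Q * h ^ m * (2 * R) := h4
      _ = (Q * (2 * K) * h ^ m) * h := by rw [← h2K]; ring
      _ ≤ m ^ 2 * (2 * R) ^ m * h := mul_le_mul_of_nonneg_right h3 hh0.le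
  rw [← hh]
  calc _ ≤ _ + _ := abs_sub _ _
    _ ≤ C * (2 * R) ^ m * h + m ^ 2 * (2 * R) ^ m * h := add_le_add k1 k2
    _ = _ := by ring

end

end Pool.Agent.J4.H44.KL
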