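import Pool.Agent.J4.H44.KL.Tup
import Pool.Agent.J4.H44.KL.Grid

/-! # Occupied cells and tuples of neighbours -/

set_option autoImplicit false

namespace Pool.Agent.J4.H44.KL

open Finset

open Classical in
/-- if every neighbour is in exactly one cell and every cell contains at most one neighbour, then the
tuples of neighbours correspond to the tuples of occupied cells -/
lemma occ_inj {m N : ℕ} (A : Fin m → Finset ℕ) (P : Fin m → Fin N → Finset ℕ)
    (h1 : ∀ i l, l ∈ A i ↔ ∃ c, l ∈ P i c)
    (h2 : ∀ i j c d l, l ∈ P i c → l ∈ P j d → c = d)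
    (h3 : ∀ i j c l l', l ∈ P i c → l' ∈ P j c → l = l') :
    (inj A).card = ((univ : Finset (Fin m → Fin N)).filter
      (fun c => Function.Injective c ∧ ∀ i, (P i (c i)).Nonempty)).card := by
  have hf : ∀ l ∈ inj A, ∃ c : Fin m → Fin N, ∀ i, l i ∈ P i (c i) := by
    intro l hl
    rw [mem_inj] at hl
    have : ∀ i, ∃ c, l i ∈ P i c := fun i => (h1 i (l i)).1 (hl.1 i)
    choose c hc using this
    exact ⟨c, hc⟩
  refine Finset.card_bij (fun l hl => (hf l hl).choose) ?_ ?_ ?_
  · intro l hl
    have hc := (hf l hl).choose_spec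
    rw [mem_inj] at hl
    rw [mem_filter]
    refine ⟨mem_univ _, ?_, fun i => ⟨l i, hc i⟩⟩
    intro i j hij
    apply hl.2
    have := hc j
    rw [← hij] at this
    exact h3 i j _ _ _ (hc i) this
  · intro l hl l' hl' h
    have hc := (hf l hl).choose_spec
    have hc' := (hf l' hl').choose_spec
    rw [← h] at hc'
    funext i
    exact h3 i i _ _ _ (hc i) (hc' i)
  · intro c hc
    rw [mem_filter] at hc
    obtain ⟨-, hcinj, hne⟩ := hc
    choose l hl using hne
    have hmem : l ∈ inj A := by
      rw [mem_inj]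
      refine ⟨fun i => (h1 i (l i)).2 ⟨c i, hl i⟩, ?_⟩
      intro i j hij
      apply hcinj
      have := hl j
      rw [← hij] at this
      exact h2 i j _ _ _ (hl i) this
    refine ⟨l, hmem, ?_⟩
    have hc := (hf l hmem).choose_spec
    funext i
    exact h2 i i _ _ _ (hc i) (hl i)

/-- a point is in at most two cells -/
lemma two_cells {R : ℝ} (hR : 0 < R) {K : ℕ} (hK : 0 < K) (p : ℝ) (s : Finset (Fin (2 * K)))
    (hs : ∀ c ∈ s, p ∈ cel R K c) : s.card ≤ 2 := by
  classical
  have hh : 0 < R / K := by positivity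
  rcases s.eq_empty_or_nonempty with h | h
  · rw [h]; simp
  · obtain ⟨c0, hc0, hmin⟩ := s.exists_min_image (fun c => (c : ℕ)) h
    have key : ∀ c ∈ s, (c : ℕ) = c0 ∨ (c : ℕ) = c0 + 1 := by
      intro c hc
      have h1 := hmin c hc
      by_contra hcon
      have h2 : (c0 : ℕ) + 1 + 1 ≤ c := by omega
      have h3 := (hs c0 hc0).2
      have h4 := (hs c hc).1
      have h5 := gr_mono hR.le K h2
      have h6 := gr_succ R K (c0 + 1)
      linarith
    have hsub : s.image (fun c : Fin (2 * K) => (c : ℕ)) ⊆ {(c0 : ℕ), (c0 : ℕ) + 1} := by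
      intro d hd
      rw [mem_image] at hd
      obtain ⟨c, hc, rfl⟩ := hd
      rw [mem_insert, mem_singleton]
      exact key c hc
    have hcard := Finset.card_le_card hsub
    rw [Finset.card_image_of_injective _ Fin.val_injective] at hcard
    exact hcard.trans Finset.card_le_two

open Classical in
/-- the number of tuples of occupied cells -/
lemma occ_le {m : ℕ} {R : ℝ} (hR : 0 < R) {K : ℕ} (hK : 0 < K) (pos : ℕ → ℝ) (P : Fin m → Fin (2 * K) → Finset ℕ)
    (S : Finset ℕ) (hPS : ∀ i c, P i c ⊆ S) (hP : ∀ i (c : Fin (2 * K)), ∀ l ∈ P i c, pos l ∈ cel R K c) :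
    ((univ : Finset (Fin m → Fin (2 * K))).filter
      (fun c => Function.Injective c ∧ ∀ i, (P i (c i)).Nonempty)).card ≤ (2 * S.card) ^ m := by
  obtain ⟨O, hO⟩ : ∃ O : Finset (Fin (2 * K)), O = univ.filter (fun c : Fin (2 * K) => ∃ l ∈ S, pos l ∈ cel R K c) := ⟨_, rfl⟩
  have h1 : (univ : Finset (Fin m → Fin (2 * K))).filter
      (fun c => Function.Injective c ∧ ∀ i, (P i (c i)).Nonempty) ⊆ Fintype.piFinset (fun _ => O) := by
    intro c hc
    rw [mem_filter] at hc
    rw [Fintype.mem_piFinset]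
    intro i
    obtain ⟨l, hl⟩ := hc.2.2 i
    rw [hO, mem_filter]
    exact ⟨mem_univ _, l, hPS _ _ hl, hP _ _ _ hl⟩
  have h2 := Finset.card_le_card h1
  rw [Fintype.card_piFinset, Finset.prod_const, Finset.card_univ, Fintype.card_fin] at h2
  refine h2.trans (Nat.pow_le_pow_left ?_ m)
  have h3 : O ⊆ S.biUnion (fun l => univ.filter (fun c : Fin (2 * K) => pos l ∈ cel R K c)) := by
    intro c hc
    rw [hO, mem_filter] at hc
    obtain ⟨-, l, hl, hlc⟩ := hc
    rw [mem_biUnion]
    exact ⟨l, hl, by rw [mem_filter]; exact ⟨mem_univ _, hlc⟩⟩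
  calc O.card ≤ _ := (Finset.card_le_card h3).trans Finset.card_biUnion_le
    _ ≤ ∑ _l ∈ S, 2 := Finset.sum_le_sum fun l _ => two_cells hR hK (pos l) _ fun c hc => (mem_filter.1 hc).2
    _ = 2 * S.card := by rw [sum_const, smul_eq_mul, mul_comm]

/-- the injective choices from one set -/
lemma inj_const (S : Finset ℕ) (k : ℕ) : (inj (fun _ : Fin k => S)).card = S.card.descFactorial k := by
  classical
  induction k with
  | zero =>
    have : inj (fun _ : Fin 0 => S) = Finset.univ := by
      ext l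
      rw [mem_inj]
      refine ⟨fun _ => mem_univ _, fun _ => ⟨fun i => i.elim0, fun i => i.elim0⟩⟩
    rw [this]
    simp
  | succ k ih =>
    have h1 : (fun _ : Fin (k + 1) => S) = Fin.cons S (fun _ : Fin k => S) := by
      funext i
      refine Fin.cases ?_ (fun j => ?_) i <;> simp
    rw [h1, inj_cons, Nat.descFactorial_succ, ← ih]
    have h2 : ∀ l ∈ inj (fun _ : Fin k => S), (S \ Finset.univ.image l).card = S.card - k := by
      intro l hl
      rw [mem_inj] at hl
      rw [Finset.card_sdiff_of_subset]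
      · rw [Finset.card_image_of_injective _ hl.2, Finset.card_univ, Fintype.card_fin]
      · intro a ha
        rw [mem_image] at ha
        obtain ⟨i, _, rfl⟩ := ha
        exact hl.1 i
    rw [Finset.sum_congr rfl h2, sum_const, smul_eq_mul, mul_comm]

/-- Bonferroni's inequalities -/
lemma bonf (X q : ℕ) : ∑ k ∈ range (q + 1), (-1 : ℝ) ^ k / (Nat.factorial k : ℝ) * (X.descFactorial k : ℝ) =
    if X = 0 then 1 else (-1 : ℝ) ^ q * ((X - 1).choose q : ℝ) := by
  have h1 : ∀ k, (-1 : ℝ) ^ k / (Nat.factorial k : ℝ) * (X.descFactorial k : ℝ) = (-1 : ℝ) ^ k * (X.choose k : ℝ) := by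
    intro k
    rw [Nat.descFactorial_eq_factorial_mul_choose]
    have : (Nat.factorial k : ℝ) ≠ 0 := by positivity
    push_cast
    field_simp
  simp only [h1]
  split_ifs with h
  · subst h
    rw [Finset.sum_eq_single 0]
    · simp
    · intro k _ hk
      rw [Nat.choose_eq_zero_of_lt (by omega)]
      simp
    · intro h
      exact absurd (mem_range.2 (by omega)) h
  · obtain ⟨Y, rfl⟩ : ∃ Y, X = Y + 1 := ⟨X - 1, by omega⟩
    have := Int.alternating_sum_range_choose_eq_choose (n := Y) (m := q)
    rw [Nat.add_sub_cancel]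
    exact_mod_cast this

end Pool.Agent.J4.H44.KL
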