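import Mathlib

/-! # The sine kernel determinant: bounds and the marginal in one variable -/

set_option autoImplicit false

namespace Pool.Agent.J4.H44.KL

open MeasureTheory Set Filter Topology

noncomputable section

/-- the points `(u, 0)` -/
def pt {ι : Type} (u : ι → ℝ) (o : Option ι) : ℝ := o.elim 0 u

/-- the matrix of the sine kernel at the points `(u, 0)` -/
def SM {ι : Type} (u : ι → ℝ) : Matrix (Option ι) (Option ι) ℝ :=
  Matrix.of fun i j => Real.sinc (Real.pi * (pt u i - pt u j))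

lemma abs_sinc_le (t : ℝ) : |Real.sinc t| ≤ 1 := Real.abs_sinc_le_one t

lemma sinc_sq_le (v : ℝ) : Real.sinc (Real.pi * v) ^ 2 ≤ 2 * (1 + v ^ 2)⁻¹ := by
  have hpi := Real.pi_gt_three
  have h1 : |Real.sinc (Real.pi * v)| ≤ 1 := abs_sinc_le _
  have h2 : Real.sinc (Real.pi * v) ^ 2 ≤ 1 := by
    rw [← sq_abs]
    exact pow_le_one₀ (abs_nonneg _) h1
  by_cases hv : v = 0
  · subst hv
    simp
  have h3 : Real.sinc (Real.pi * v) ^ 2 * v ^ 2 ≤ 1 := by
    rw [Real.sinc_of_ne_zero (by positivity), div_pow]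
    have h4 : Real.sin (Real.pi * v) ^ 2 ≤ 1 := Real.sin_sq_le_one _
    have h5 : 0 < (Real.pi * v) ^ 2 := by positivity
    rw [div_mul_eq_mul_div, div_le_one h5, mul_pow]
    have h6 : 0 < v ^ 2 := by positivity
    have h7 : (1 : ℝ) ≤ Real.pi ^ 2 := by nlinarith
    calc Real.sin (Real.pi * v) ^ 2 * v ^ 2 ≤ 1 * v ^ 2 := mul_le_mul_of_nonneg_right h4 h6.le
      _ ≤ Real.pi ^ 2 * v ^ 2 := mul_le_mul_of_nonneg_right h7 h6.le
  rw [← div_eq_mul_inv, le_div_iff₀ (by positivity)]
  nlinarith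

/-- products of bounded numbers are Lipschitz -/
lemma prod_lip {ι : Type} (s : Finset ι) (a b : ι → ℝ) (ha : ∀ i ∈ s, |a i| ≤ 2) (hb : ∀ i ∈ s, |b i| ≤ 2) :
    |∏ i ∈ s, a i - ∏ i ∈ s, b i| ≤ 2 ^ s.card * ∑ i ∈ s, |a i - b i| := by
  classical
  induction s using Finset.induction_on with
  | empty => simp
  | insert i s his ih =>
    rw [Finset.prod_insert his, Finset.prod_insert his, Finset.card_insert_of_notMem his,
      Finset.sum_insert his]
    have h1 := ih (fun j hj => ha j (Finset.mem_insert_of_mem hj)) (fun j hj => hb j (Finset.mem_insert_of_mem hj))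
    have h2 : |∏ j ∈ s, b j| ≤ 2 ^ s.card := by
      rw [Finset.abs_prod]
      calc ∏ j ∈ s, |b j| ≤ ∏ _j ∈ s, (2 : ℝ) := Finset.prod_le_prod (fun _ _ => abs_nonneg _)
            fun j hj => hb j (Finset.mem_insert_of_mem hj)
        _ = _ := by rw [Finset.prod_const]
    have h3 : a i * ∏ j ∈ s, a j - b i * ∏ j ∈ s, b j =
        a i * (∏ j ∈ s, a j - ∏ j ∈ s, b j) + (a i - b i) * ∏ j ∈ s, b j := by ring
    rw [h3]
    refine (abs_add_le _ _).trans ?_
    rw [abs_mul, abs_mul]
    have h4 := ha i (Finset.mem_insert_self i s)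
    have h5 : |a i| * |∏ j ∈ s, a j - ∏ j ∈ s, b j| ≤ 2 * (2 ^ s.card * ∑ j ∈ s, |a j - b j|) :=
      mul_le_mul h4 h1 (abs_nonneg _) (by norm_num)
    have h6 : |a i - b i| * |∏ j ∈ s, b j| ≤ |a i - b i| * 2 ^ s.card :=
      mul_le_mul_of_nonneg_left h2 (abs_nonneg _)
    have h7 : |a i - b i| * 2 ^ s.card ≤ 2 ^ (s.card + 1) * |a i - b i| := by
      rw [pow_succ]
      have : 0 ≤ |a i - b i| * 2 ^ s.card := by positivity
      nlinarith
    calc |a i| * |∏ j ∈ s, a j - ∏ j ∈ s, b j| + |a i - b i| * |∏ j ∈ s, b j| ≤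
        2 * (2 ^ s.card * ∑ j ∈ s, |a j - b j|) + 2 ^ (s.card + 1) * |a i - b i| := by linarith
      _ = _ := by rw [pow_succ]; ring

/-- the determinant is Lipschitz on bounded matrices -/
lemma det_lip {κ : Type} [Fintype κ] [DecidableEq κ] (X Y : Matrix κ κ ℝ) (hX : ∀ i j, |X i j| ≤ 2)
    (hY : ∀ i j, |Y i j| ≤ 2) (δ : ℝ) (hδ : ∀ i j, |X i j - Y i j| ≤ δ) :
    |X.det - Y.det| ≤ (Nat.factorial (Fintype.card κ)) * (2 ^ Fintype.card κ * (Fintype.card κ * δ)) := by
  rw [Matrix.det_apply, Matrix.det_apply, ← Finset.sum_sub_distrib]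
  refine (Finset.abs_sum_le_sum_abs _ _).trans ?_
  have h1 : ∀ σ ∈ (Finset.univ : Finset (Equiv.Perm κ)),
      |Equiv.Perm.sign σ • ∏ i, X (σ i) i - Equiv.Perm.sign σ • ∏ i, Y (σ i) i| ≤
      2 ^ Fintype.card κ * (Fintype.card κ * δ) := by
    intro σ _
    rw [← smul_sub]
    have h2 : |Equiv.Perm.sign σ • (∏ i, X (σ i) i - ∏ i, Y (σ i) i)| =
        |∏ i, X (σ i) i - ∏ i, Y (σ i) i| := by
      rcases Int.units_eq_one_or (Equiv.Perm.sign σ) with h | h
      · rw [h, one_smul]
      · rw [h]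
        simp [abs_sub_comm]
    rw [h2]
    have h3 := prod_lip Finset.univ (fun i => X (σ i) i) (fun i => Y (σ i) i) (fun i _ => hX _ _)
      (fun i _ => hY _ _)
    refine h3.trans ?_
    rw [Finset.card_univ]
    refine mul_le_mul_of_nonneg_left ?_ (by positivity)
    calc ∑ i, |X (σ i) i - Y (σ i) i| ≤ ∑ _i : κ, δ := Finset.sum_le_sum fun i _ => hδ _ _
      _ = _ := by rw [Finset.sum_const, Finset.card_univ, nsmul_eq_mul]
  refine (Finset.sum_le_sum h1).trans ?_
  rw [Finset.sum_const, Finset.card_univ, Fintype.card_perm, nsmul_eq_mul]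

lemma SM_le {ι : Type} (u : ι → ℝ) (i j : Option ι) : |SM u i j| ≤ 1 := abs_sinc_le _

/-- the sum of the squares of the kernel between `v` and the points -/
def bs {m : ℕ} (u : Fin m → ℝ) (v : ℝ) : ℝ := ∑ o : Option (Fin m), Real.sinc (Real.pi * (v - pt u o)) ^ 2

/-- a further point `v` -/
lemma det_cons {m : ℕ} (u : Fin m → ℝ) (v : ℝ) :
    (SM (Fin.cons v u : Fin (m + 1) → ℝ)).det =
      (SM u - Matrix.of fun i j => Real.sinc (Real.pi * (v - pt u i)) * Real.sinc (Real.pi * (v - pt u j))).det := by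
  -- the bijection
  let e : Option (Fin (m + 1)) ≃ Unit ⊕ Option (Fin m) :=
    { toFun := fun o => o.elim (Sum.inr none) (fun i => Fin.cases (Sum.inl ()) (fun j => Sum.inr (some j)) i)
      invFun := fun s => s.elim (fun _ => some 0) (fun o => o.elim none (fun j => some j.succ))
      left_inv := by
        intro o
        cases o with
        | none => rfl
        | some i => refine Fin.cases ?_ (fun j => ?_) i <;> rfl
      right_inv := by
        intro s
        rcases s with s | o
        · rfl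
        · cases o <;> rfl }
  have h1 : SM (Fin.cons v u : Fin (m + 1) → ℝ) = (Matrix.fromBlocks (1 : Matrix Unit Unit ℝ)
      (Matrix.of fun _ j => Real.sinc (Real.pi * (v - pt u j)))
      (Matrix.of fun i _ => Real.sinc (Real.pi * (v - pt u i))) (SM u)).submatrix e e := by
    ext i j
    have hs : ∀ a b : ℝ, Real.sinc (Real.pi * (a - b)) = Real.sinc (Real.pi * (b - a)) := by
      intro a b
      rw [← Real.sinc_neg]
      congr 1
      ring
    rcases i with _ | i <;> rcases j with _ | j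
    · rfl
    · refine Fin.cases ?_ (fun j => ?_) j
      · simp [SM, e, pt]
      · rfl
    · refine Fin.cases ?_ (fun i => ?_) i
      · simp [SM, e, pt]
      · rfl
    · refine Fin.cases ?_ (fun i => ?_) i <;> refine Fin.cases ?_ (fun j => ?_) j
      · simp [SM, e, pt]
      · simp [SM, e, pt]
      · simp [SM, e, pt, hs (u i) v]
      · rfl
  rw [h1, Matrix.det_submatrix_equiv_self, Matrix.det_fromBlocks_one₁₁]
  congr 1
  ext i j
  simp [Matrix.mul_apply]

lemma det_cons_sub {m : ℕ} : ∃ C : ℝ, 0 < C ∧ ∀ (u : Fin m → ℝ) (v : ℝ),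
    |(SM (Fin.cons v u : Fin (m + 1) → ℝ)).det - (SM u).det| ≤ C * bs u v := by
  refine ⟨(Nat.factorial (m + 1)) * (2 ^ (m + 1) * (m + 1)), by positivity, fun u v => ?_⟩
  rw [det_cons]
  have h := det_lip (SM u - Matrix.of fun i j => Real.sinc (Real.pi * (v - pt u i)) *
      Real.sinc (Real.pi * (v - pt u j))) (SM u) (fun i j => ?_) (fun i j => ?_) (bs u v) (fun i j => ?_)
  · rw [Fintype.card_option, Fintype.card_fin] at h
    refine h.trans (le_of_eq ?_)
    push_cast
    ring
  · have h1 := SM_le u i j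
    have h2 := abs_sinc_le (Real.pi * (v - pt u i))
    have h3 := abs_sinc_le (Real.pi * (v - pt u j))
    have h4 : |Real.sinc (Real.pi * (v - pt u i)) * Real.sinc (Real.pi * (v - pt u j))| ≤ 1 := by
      rw [abs_mul]
      calc _ ≤ (1 : ℝ) * 1 := mul_le_mul h2 h3 (abs_nonneg _) zero_le_one
        _ = 1 := one_mul 1
    rw [Matrix.sub_apply, Matrix.of_apply]
    refine (abs_sub _ _).trans ?_
    linarith
  · have h1 := SM_le u i j
    linarith
  · rw [Matrix.sub_apply, Matrix.of_apply, sub_sub_cancel_left, abs_neg, abs_mul]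
    have h1 : |Real.sinc (Real.pi * (v - pt u i))| ^ 2 ≤ bs u v := by
      rw [sq_abs]
      exact Finset.single_le_sum (f := fun o => Real.sinc (Real.pi * (v - pt u o)) ^ 2)
        (fun _ _ => sq_nonneg _) (Finset.mem_univ i)
    have h2 : |Real.sinc (Real.pi * (v - pt u j))| ^ 2 ≤ bs u v := by
      rw [sq_abs]
      exact Finset.single_le_sum (f := fun o => Real.sinc (Real.pi * (v - pt u o)) ^ 2)
        (fun _ _ => sq_nonneg _) (Finset.mem_univ j)
    nlinarith [sq_nonneg (|Real.sinc (Real.pi * (v - pt u i))| - |Real.sinc (Real.pi * (v - pt u j))|)]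

/-- the determinants are bounded -/
lemma det_bd {m : ℕ} : ∃ C : ℝ, 0 < C ∧ ∀ u : Fin m → ℝ, |(SM u).det| ≤ C := by
  refine ⟨(Nat.factorial (m + 1)), by positivity, fun u => ?_⟩
  rw [Matrix.det_apply]
  refine (Finset.abs_sum_le_sum_abs _ _).trans ?_
  have h1 : ∀ σ ∈ (Finset.univ : Finset (Equiv.Perm (Option (Fin m)))),
      |Equiv.Perm.sign σ • ∏ i, SM u (σ i) i| ≤ 1 := by
    intro σ _
    have h2 : |Equiv.Perm.sign σ • ∏ i, SM u (σ i) i| = |∏ i, SM u (σ i) i| := by
      rcases Int.units_eq_one_or (Equiv.Perm.sign σ) with h | h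
      · rw [h, one_smul]
      · rw [h]
        simp
    rw [h2, Finset.abs_prod]
    exact Finset.prod_le_one (fun _ _ => abs_nonneg _) fun i _ => SM_le u _ _
  refine (Finset.sum_le_sum h1).trans ?_
  rw [Finset.sum_const, Finset.card_univ, Fintype.card_perm, Fintype.card_option, Fintype.card_fin,
    nsmul_eq_mul, mul_one]

lemma cont_sinc : Continuous Real.sinc := Real.continuous_sinc

lemma det_cont {m : ℕ} : Continuous fun u : Fin m → ℝ => (SM u).det := by
  apply Continuous.matrix_det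
  refine continuous_matrix fun i j => ?_
  have hp : ∀ o : Option (Fin m), Continuous fun u : Fin m → ℝ => pt u o := by
    intro o
    cases o with
    | none => exact continuous_const
    | some i => exact continuous_apply i
  exact cont_sinc.comp (continuous_const.mul ((hp i).sub (hp j)))

end

end Pool.Agent.J4.H44.KL
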