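import Pool.Agent.J4.H44.KL.Cells

/-! # From intervals to finite unions of intervals -/

set_option autoImplicit false

namespace Pool.Agent.J4.H44.KL

open MeasureTheory Set Filter Topology

noncomputable section

/-- finite unions of closed intervals (the intervals may be empty or points) -/
def FU (U : Set ℝ) : Prop := ∃ (r : ℕ) (a b : Fin r → ℝ), U = ⋃ i, Icc (a i) (b i)

lemma FU_Icc (a b : ℝ) : FU (Icc a b) := ⟨1, fun _ => a, fun _ => b, by rw [iUnion_const]⟩

lemma FU_meas {U : Set ℝ} (h : FU U) : MeasurableSet U := by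
  obtain ⟨r, a, b, rfl⟩ := h
  exact MeasurableSet.iUnion fun i => measurableSet_Icc

lemma FU_vol {U : Set ℝ} (h : FU U) : volume U ≠ ⊤ := by
  obtain ⟨r, a, b, rfl⟩ := h
  have h1 : volume (⋃ i, Icc (a i) (b i)) ≤ ∑ i, volume (Icc (a i) (b i)) := measure_iUnion_fintype_le _ _
  refine (h1.trans_lt ?_).ne
  exact ENNReal.sum_lt_top.2 fun i _ => by rw [Real.volume_Icc]; exact ENNReal.ofReal_lt_top

lemma FU_fin {m : ℕ} (I : Finset (Fin m)) (a b : Fin m → ℝ) : FU (⋃ i ∈ I, Icc (a i) (b i)) := by
  classical
  refine ⟨m, fun i => if i ∈ I then a i else 1, fun i => if i ∈ I then b i else 0, ?_⟩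
  refine iUnion_congr fun i => ?_
  by_cases hi : i ∈ I
  · simp [hi]
  · simp [hi]

/-- extension from the intervals -/
lemma FU_ext (Φ : Set ℝ → Prop) (h0 : ∀ a b : ℝ, Φ (Icc a b))
    (h1 : ∀ A B : Set ℝ, FU A → FU B → Φ A → Φ B → Φ (A ∩ B) → Φ (A ∪ B)) {U : Set ℝ} (hU : FU U) : Φ U := by
  obtain ⟨r, a, b, rfl⟩ := hU
  induction r with
  | zero =>
    have : (⋃ i : Fin 0, Icc (a i) (b i)) = Icc (1 : ℝ) 0 := by simp
    rw [this]
    exact h0 1 0
  | succ r ih =>
    have e1 : (⋃ i : Fin (r + 1), Icc (a i) (b i)) = Icc (a 0) (b 0) ∪ ⋃ i : Fin r, Icc (a i.succ) (b i.succ) := by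
      ext p
      simp only [mem_iUnion, mem_union]
      rw [Fin.exists_fin_succ]
    rw [e1]
    refine h1 _ _ (FU_Icc _ _) ⟨r, _, _, rfl⟩ (h0 _ _) (ih _ _) ?_
    have e2 : (Icc (a 0) (b 0) ∩ ⋃ i : Fin r, Icc (a i.succ) (b i.succ)) =
        ⋃ i : Fin r, Icc (max (a 0) (a i.succ)) (min (b 0) (b i.succ)) := by
      rw [inter_iUnion]
      refine iUnion_congr fun i => ?_
      rw [Icc_inter_Icc]
    rw [e2]
    exact ih _ _

/-- the integral over a product -/
def JV {k : ℕ} (V : Fin k → Set ℝ) : ℝ := ∫ u in Set.univ.pi V, (SM u).det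

lemma pi_update {k : ℕ} (V : Fin k → Set ℝ) (i : Fin k) (A : Set ℝ) (u : Fin k → ℝ) :
    u ∈ Set.univ.pi (Function.update V i A) ↔ u i ∈ A ∧ ∀ j, j ≠ i → u j ∈ V j := by
  rw [mem_univ_pi]
  constructor
  · intro h
    refine ⟨by simpa using h i, fun j hj => ?_⟩
    have := h j
    rwa [Function.update_of_ne hj] at this
  · rintro ⟨h1, h2⟩ j
    by_cases hj : j = i
    · subst hj
      simpa using h1
    · rw [Function.update_of_ne hj]
      exact h2 j hj

lemma JV_modular {k : ℕ} (V : Fin k → Set ℝ) (i : Fin k) (hV : ∀ j, MeasurableSet (V j))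
    (hV' : ∀ j, volume (V j) ≠ ⊤) (A B : Set ℝ) (hA : FU A) (hB : FU B) :
    JV (Function.update V i (A ∪ B)) + JV (Function.update V i (A ∩ B)) =
      JV (Function.update V i A) + JV (Function.update V i B) := by
  classical
  unfold JV
  have hm : ∀ C : Set ℝ, MeasurableSet C → ∀ j, MeasurableSet (Function.update V i C j) := by
    intro C hC j
    by_cases hj : j = i
    · subst hj; simpa using hC
    · rw [Function.update_of_ne hj]; exact hV j
  have hf : ∀ C : Set ℝ, volume C ≠ ⊤ → ∀ j, volume (Function.update V i C j) ≠ ⊤ := by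
    intro C hC j
    by_cases hj : j = i
    · subst hj; simpa using hC
    · rw [Function.update_of_ne hj]; exact hV' j
  have hAm := FU_meas hA
  have hBm := FU_meas hB
  have hAf := FU_vol hA
  have hBf := FU_vol hB
  have e1 : Set.univ.pi (Function.update V i (A ∪ B)) =
      Set.univ.pi (Function.update V i A) ∪ Set.univ.pi (Function.update V i B) := by
    ext u
    rw [mem_union, pi_update, pi_update, pi_update, mem_union]
    tauto
  have e2 : Set.univ.pi (Function.update V i (A ∩ B)) =
      Set.univ.pi (Function.update V i A) ∩ Set.univ.pi (Function.update V i B) := by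
    ext u
    rw [mem_inter_iff, pi_update, pi_update, pi_update, mem_inter_iff]
    tauto
  have mA := MeasurableSet.univ_pi (hm A hAm)
  have mB := MeasurableSet.univ_pi (hm B hBm)
  have iA := pi_integrable _ (hf A hAf)
  have iB := pi_integrable _ (hf B hBf)
  rw [e1, e2, ← integral_indicator (mA.union mB), ← integral_indicator (mA.inter mB), ← integral_indicator mA,
    ← integral_indicator mB, ← integral_add, ← integral_add]
  · refine integral_congr_ae (ae_of_all _ fun u => ?_)
    exact congrFun (Set.indicator_union_add_inter (fun u : Fin k → ℝ => (SM u).det)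
      (Set.univ.pi (Function.update V i A)) (Set.univ.pi (Function.update V i B))) u
  · exact iA.integrable_indicator mA
  · exact iB.integrable_indicator mB
  · exact (iA.union iB).integrable_indicator (mA.union mB)
  · exact (iA.mono_set inter_subset_left).integrable_indicator (mA.inter mB)

lemma inj_modular {k : ℕ} (A : Fin k → Finset ℕ) (i : Fin k) (S S' : Finset ℕ) :
    (inj (Function.update A i (S ∪ S'))).card + (inj (Function.update A i (S ∩ S'))).card =
      (inj (Function.update A i S)).card + (inj (Function.update A i S')).card := by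
  classical
  have hup : ∀ (C : Finset ℕ) (l : Fin k → ℕ), (∀ j, l j ∈ Function.update A i C j) ↔
      (l i ∈ C ∧ ∀ j, j ≠ i → l j ∈ A j) := by
    intro C l
    constructor
    · intro h
      refine ⟨by simpa using h i, fun j hj => ?_⟩
      have := h j
      rwa [Function.update_of_ne hj] at this
    · rintro ⟨h1, h2⟩ j
      by_cases hj : j = i
      · subst hj
        simpa using h1
      · rw [Function.update_of_ne hj]
        exact h2 j hj
  have e1 : inj (Function.update A i (S ∪ S')) = inj (Function.update A i S) ∪ inj (Function.update A i S') := by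
    ext l
    rw [Finset.mem_union, mem_inj, mem_inj, mem_inj, hup, hup, hup, Finset.mem_union]
    tauto
  have e2 : inj (Function.update A i (S ∩ S')) = inj (Function.update A i S) ∩ inj (Function.update A i S') := by
    ext l
    rw [Finset.mem_inter, mem_inj, mem_inj, mem_inj, hup, hup, hup, Finset.mem_inter]
    tauto
  rw [e1, e2, Finset.card_union_add_card_inter]

/-- the numbers `H(U)` for small sets -/
lemma HU_near : ∃ E : ℝ, 0 ≤ E ∧ ∀ (U : Set ℝ) (c : ℝ), 0 ≤ c → c ≤ 1 → MeasurableSet U →
    volume U ≤ ENNReal.ofReal c → |HU U - 1| ≤ E * c := by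
  have hsum : Summable fun k : ℕ => (1 : ℝ) ^ k / (Nat.factorial k : ℝ) := Real.summable_pow_div_factorial 1
  refine ⟨∑' k : ℕ, (1 : ℝ) ^ k / (Nat.factorial k : ℝ), tsum_nonneg fun k => by positivity, ?_⟩
  intro U c hc0 hc1 hU hvol
  have h1 : HasSum (fun k : ℕ => (-1) ^ k / (Nat.factorial k : ℝ) * JU k U) (HU U) :=
    (HU_summable hU hc0 hvol).hasSum
  have h2 : HasSum (fun k : ℕ => if k = 0 then (1 : ℝ) else 0) 1 := hasSum_ite_eq 0 1
  have h3 := h1.sub h2
  have hJ0 : JU 0 U = 1 := by
    unfold JU
    have e1 : (Set.univ.pi (fun _ : Fin 0 => U)) = {default} := by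
      ext u
      simp [Subsingleton.elim u default]
    rw [e1, integral_singleton]
    have e2 : (volume : Measure (Fin 0 → ℝ)).real {default} = 1 := by
      rw [measureReal_def, Measure.volume_pi_eq_dirac default]
      simp
    have e3 : (SM (default : Fin 0 → ℝ)).det = 1 := by
      have h4 : SM (default : Fin 0 → ℝ) = 1 := by
        ext i j
        rcases i with _ | i
        · rcases j with _ | j
          · show Real.sinc (Real.pi * (0 - 0)) = _
            simp
          · exact j.elim0
        · exact i.elim0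
      rw [h4, Matrix.det_one]
    rw [e2, e3, one_smul]
  have hbd : ∀ k : ℕ, ‖(-1) ^ k / (Nat.factorial k : ℝ) * JU k U - (if k = 0 then (1 : ℝ) else 0)‖ ≤
      c * ((1 : ℝ) ^ k / (Nat.factorial k : ℝ)) := by
    intro k
    rcases Nat.eq_zero_or_pos k with hk | hk
    · subst hk
      rw [if_pos rfl, hJ0]
      simp
      exact hc0
    · obtain ⟨q1, q2⟩ := JU_bd k hU hc0 hvol
      have q3 : c ^ k ≤ c := by
        calc c ^ k ≤ c ^ 1 := pow_le_pow_of_le_one hc0 hc1 hk
          _ = c := pow_one c
      rw [if_neg hk.ne', sub_zero, norm_mul, norm_div, norm_pow, norm_neg, norm_one, one_pow,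
        Real.norm_of_nonneg (Nat.cast_nonneg _), Real.norm_of_nonneg q1, div_mul_eq_mul_div, one_mul,
        mul_one_div]
      gcongr
      exact q2.trans q3
  have h8 := h3.norm_le_of_bounded (hsum.hasSum.mul_left c) hbd
  rw [Real.norm_eq_abs] at h8
  rw [mul_comm]
  exact h8

end

end Pool.Agent.J4.H44.KL
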