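import Pool.Agent.J4.H44.KL.Mom
import Pool.Agent.J4.H44.KL.Modular

/-! # Zeros without neighbours in a set -/

set_option autoImplicit false

namespace Pool.Agent.J4.H44.KL

open Filter Topology MeasureTheory Set
open SG (ord NZ)
open SP (RHs)
open Pool.Agent.R320.KL (Cs DD XX Nk)

noncomputable section

/-- the normalised difference of the zeros `l` and `n` -/
def ps (T : ℝ) (n l : ℕ) : ℝ := (ord l - ord n) * (Real.log T / (2 * Real.pi))

open Classical in
/-- the neighbours of `n` in the set `U` -/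
def nbs (T : ℝ) (U : Set ℝ) (n : ℕ) : Finset ℕ :=
  (Finset.Icc 1 (NZ T)).filter (fun l => l ≠ n ∧ ps T n l ∈ U)

lemma mem_nbs {T : ℝ} {U : Set ℝ} {n l : ℕ} : l ∈ nbs T U n ↔ l ∈ Finset.Icc 1 (NZ T) ∧ l ≠ n ∧ ps T n l ∈ U := by
  classical
  unfold nbs
  rw [Finset.mem_filter]

lemma Cs_nbs (T x y : ℝ) (n : ℕ) : Cs T x y n = nbs T (Icc x y) n := by
  ext l
  rw [mem_nbs]
  unfold Cs ps
  rw [Finset.mem_filter]

lemma nbs_mono {T : ℝ} {U V : Set ℝ} (h : U ⊆ V) (n : ℕ) : nbs T U n ⊆ nbs T V n := by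
  intro l hl
  rw [mem_nbs] at hl ⊢
  exact ⟨hl.1, hl.2.1, h hl.2.2⟩

lemma nbs_union {T : ℝ} (U V : Set ℝ) (n : ℕ) : nbs T (U ∪ V) n = nbs T U n ∪ nbs T V n := by
  ext l
  rw [Finset.mem_union, mem_nbs, mem_nbs, mem_nbs, mem_union]
  tauto

lemma nbs_inter {T : ℝ} (U V : Set ℝ) (n : ℕ) : nbs T (U ∩ V) n = nbs T U n ∩ nbs T V n := by
  ext l
  rw [Finset.mem_inter, mem_nbs, mem_nbs, mem_nbs, mem_inter_iff]
  tauto

/-- the number of the zeros without neighbours in `U` -/
def hole (T : ℝ) (U : Set ℝ) : ℕ := ((Finset.Icc 1 (NZ T)).filter (fun n => nbs T U n = ∅)).card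

/-- the asymptotic number of zeros -/
def MT (T : ℝ) : ℝ := T / (2 * Real.pi) * Real.log T

lemma MT_pos {T : ℝ} (hT : 1 < T) : 0 < MT T := by
  unfold MT
  have := Real.log_pos hT
  have := Real.pi_pos
  positivity

lemma MT_eq (T : ℝ) : T * Real.log T = 2 * Real.pi * MT T := by
  unfold MT
  have := Real.pi_pos
  field_simp

/-- zeros all of whose sets `S i` contain a neighbour -/
def occ {m : ℕ} (T : ℝ) (S : Fin m → Set ℝ) : ℕ := by
  classical exact ((Finset.Icc 1 (NZ T)).filter (fun n => ∀ i, (nbs T (S i) n).Nonempty)).card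

/-- inclusion and exclusion -/
lemma occ_eq {m : ℕ} (T : ℝ) (S : Fin m → Set ℝ) : (occ T S : ℝ) =
    ∑ I : Finset (Fin m), (-1 : ℝ) ^ I.card * (hole T (⋃ i ∈ I, S i) : ℝ) := by
  classical
  have h1 : (occ T S : ℝ) = ∑ n ∈ Finset.Icc 1 (NZ T), ∏ i, ((1 : ℝ) - if nbs T (S i) n = ∅ then 1 else 0) := by
    unfold occ
    rw [Finset.card_filter]
    push_cast
    refine Finset.sum_congr rfl fun n _ => ?_
    by_cases h : ∀ i, (nbs T (S i) n).Nonempty
    · rw [if_pos h, Finset.prod_eq_one]
      intro i _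
      rw [if_neg (Finset.nonempty_iff_ne_empty.1 (h i)), sub_zero]
    · rw [if_neg h]
      push Not at h
      obtain ⟨i, hi⟩ := h
      rw [Finset.prod_eq_zero (Finset.mem_univ i)]
      rw [if_pos hi, sub_self]
  rw [h1]
  have h2 : ∀ n, ∏ i, ((1 : ℝ) - if nbs T (S i) n = ∅ then 1 else 0) =
      ∑ I : Finset (Fin m), (-1 : ℝ) ^ I.card * (if nbs T (⋃ i ∈ I, S i) n = ∅ then 1 else 0) := by
    intro n
    rw [Finset.prod_sub, Finset.powerset_univ]
    refine Finset.sum_congr rfl fun I _ => ?_
    rw [Finset.prod_const_one, mul_one]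
    congr 1
    by_cases h : nbs T (⋃ i ∈ I, S i) n = ∅
    · rw [if_pos h, Finset.prod_eq_one]
      intro i hi
      rw [if_pos]
      rw [Finset.eq_empty_iff_forall_notMem] at h ⊢
      intro l hl
      exact h l (nbs_mono (subset_biUnion_of_mem (u := fun i => S i) (Finset.mem_coe.2 hi)) n hl)
    · rw [if_neg h]
      obtain ⟨l, hl⟩ := Finset.nonempty_iff_ne_empty.2 h
      rw [mem_nbs, mem_iUnion₂] at hl
      obtain ⟨k1, k2, i, hi, k3⟩ := hl
      rw [Finset.prod_eq_zero hi]
      rw [if_neg]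
      intro he
      have : l ∈ nbs T (S i) n := mem_nbs.2 ⟨k1, k2, k3⟩
      rw [he] at this
      exact absurd this (Finset.notMem_empty l)
  simp only [h2]
  rw [Finset.sum_comm]
  refine Finset.sum_congr rfl fun I _ => ?_
  rw [← Finset.mul_sum]
  congr 1
  unfold hole
  rw [Finset.card_filter]
  push_cast
  rfl

lemma hole_empty (T : ℝ) : hole T ∅ = NZ T := by
  unfold hole
  rw [Finset.filter_true_of_mem, Nat.card_Icc, Nat.add_sub_cancel]
  intro n _
  rw [Finset.eq_empty_iff_forall_notMem]
  intro l hl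
  exact (mem_nbs.1 hl).2.2

lemma hole_compl (T : ℝ) (U : Set ℝ) :
    (((Finset.Icc 1 (NZ T)).filter (fun n => ¬ nbs T U n = ∅)).card : ℝ) = (hole T ∅ : ℝ) - hole T U := by
  rw [hole_empty]
  unfold hole
  have := Finset.card_filter_add_card_filter_not (s := Finset.Icc 1 (NZ T)) (fun n => nbs T U n = ∅)
  rw [Nat.card_Icc, Nat.add_sub_cancel] at this
  rw [eq_sub_iff_add_eq, add_comm]
  exact_mod_cast this

/-- the sums over the zeros of the numbers of tuples of neighbours in given sets -/
def NV {k : ℕ} (T : ℝ) (V : Fin k → Set ℝ) : ℕ := ∑ n ∈ Finset.Icc 1 (NZ T), (inj (fun i => nbs T (V i) n)).card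

lemma NV_Nk {k : ℕ} (T : ℝ) (x y : Fin k → ℝ) : Nk T x y = NV T (fun i => Icc (x i) (y i)) := by
  rw [Nk_inj]
  unfold NV
  simp only [Cs_nbs]

lemma NV_modular {k : ℕ} (T : ℝ) (V : Fin k → Set ℝ) (i : Fin k) (A B : Set ℝ) :
    NV T (Function.update V i (A ∪ B)) + NV T (Function.update V i (A ∩ B)) =
      NV T (Function.update V i A) + NV T (Function.update V i B) := by
  unfold NV
  rw [← Finset.sum_add_distrib, ← Finset.sum_add_distrib]
  refine Finset.sum_congr rfl fun n _ => ?_
  have h : ∀ C : Set ℝ, (fun j => nbs T (Function.update V i C j) n) =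
      Function.update (fun j => nbs T (V j) n) i (nbs T C n) := by
    intro C
    funext j
    by_cases hj : j = i
    · subst hj
      simp
    · rw [Function.update_of_ne hj, Function.update_of_ne hj]
  rw [h, h, h, h, nbs_union, nbs_inter]
  exact inj_modular _ i _ _

/-- convergence of the numbers of tuples -/
def Good {k : ℕ} (V : Fin k → Set ℝ) : Prop :=
  Tendsto (fun T : ℝ => (NV T V : ℝ) / MT T) atTop (𝓝 (JV V))

/-- from boxes to products of finite unions of intervals -/
lemma good_all {k : ℕ} (h : ∀ a b : Fin k → ℝ, Good (fun i => Icc (a i) (b i))) (V : Fin k → Set ℝ)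
    (hV : ∀ i, FU (V i)) : Good V := by
  classical
  have key : ∀ t : Finset (Fin k), ∀ V : Fin k → Set ℝ, (∀ i ∈ t, FU (V i)) →
      (∀ i ∉ t, ∃ a b, V i = Icc a b) → Good V := by
    intro t
    induction t using Finset.induction_on with
    | empty =>
      intro V _ h2
      have : ∀ i, ∃ ab : ℝ × ℝ, V i = Icc ab.1 ab.2 := by
        intro i
        obtain ⟨a, b, hab⟩ := h2 i (Finset.notMem_empty i)
        exact ⟨(a, b), hab⟩
      choose ab hab using this
      have e : V = fun i => Icc (ab i).1 (ab i).2 := funext hab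
      rw [e]
      exact h _ _
    | insert i t hi ih =>
      intro V h1 h2
      have hFU : ∀ j, FU (V j) := by
        intro j
        by_cases hj : j ∈ insert i t
        · exact h1 j hj
        · obtain ⟨a, b, hab⟩ := h2 j hj
          rw [hab]
          exact FU_Icc a b
      have e : V = Function.update V i (V i) := (Function.update_eq_self i V).symm
      rw [e]
      refine FU_ext (fun A => Good (Function.update V i A)) (fun a b => ?_) (fun A B hA hB gA gB gAB => ?_)
        (h1 i (Finset.mem_insert_self i t))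
      · refine ih _ (fun j hj => ?_) (fun j hj => ?_)
        · have hji : j ≠ i := fun h => hi (h ▸ hj)
          rw [Function.update_of_ne hji]
          exact h1 j (Finset.mem_insert_of_mem hj)
        · by_cases hji : j = i
          · subst hji
            exact ⟨a, b, by simp⟩
          · rw [Function.update_of_ne hji]
            exact h2 j (by rw [Finset.mem_insert]; tauto)
      · have e1 : JV (Function.update V i (A ∪ B)) = JV (Function.update V i A) + JV (Function.update V i B) -
            JV (Function.update V i (A ∩ B)) := by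
          have := JV_modular V i (fun j => FU_meas (hFU j)) (fun j => FU_vol (hFU j)) A B hA hB
          linarith
        show Good (Function.update V i (A ∪ B))
        unfold Good at gA gB gAB ⊢
        rw [e1]
        refine ((gA.add gB).sub gAB).congr fun T => ?_
        have e2 : (NV T (Function.update V i (A ∪ B)) : ℝ) = NV T (Function.update V i A) +
            NV T (Function.update V i B) - NV T (Function.update V i (A ∩ B)) := by
          have := NV_modular T V i A B
          have h3 : (NV T (Function.update V i (A ∪ B)) : ℝ) + NV T (Function.update V i (A ∩ B)) =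
            NV T (Function.update V i A) + NV T (Function.update V i B) := by exact_mod_cast this
          linarith
        rw [e2]
        ring
  exact key Finset.univ V (fun i _ => hV i) (fun i hi => absurd (Finset.mem_univ i) hi)

/-- **Correlations imply hole probabilities.** -/
theorem corr_hole (h : ∀ (k : ℕ) (a b : Fin k → ℝ), Good (fun i => Icc (a i) (b i))) {U : Set ℝ} (hU : FU U) :
    Tendsto (fun T : ℝ => (hole T U : ℝ) / MT T) atTop (𝓝 (HU U)) := by
  classical
  have hg : ∀ k : ℕ, Tendsto (fun T : ℝ => (NV T (fun _ : Fin k => U) : ℝ) / MT T) atTop (𝓝 (JU k U)) := by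
    intro k
    exact good_all (h k) (fun _ => U) (fun _ => hU)
  -- the partial sums
  obtain ⟨s, hs⟩ : ∃ s : ℕ → ℝ, s = fun q => ∑ k ∈ Finset.range (q + 1), (-1) ^ k / (Nat.factorial k : ℝ) * JU k U :=
    ⟨_, rfl⟩
  obtain ⟨sT, hsT⟩ : ∃ sT : ℕ → ℝ → ℝ, sT = fun q T => ∑ k ∈ Finset.range (q + 1),
    (-1) ^ k / (Nat.factorial k : ℝ) * ((NV T (fun _ : Fin k => U) : ℝ) / MT T) := ⟨_, rfl⟩
  have hlim : ∀ q, Tendsto (sT q) atTop (𝓝 (s q)) := by
    intro q
    rw [hsT, hs]
    exact tendsto_finsetSum _ fun k _ => (hg k).const_mul _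
  have hsum : Tendsto (fun q => s q) atTop (𝓝 (HU U)) := by
    have h1 := (HU_summable (FU_meas hU) (c := (volume U).toReal) ENNReal.toReal_nonneg
      (by rw [ENNReal.ofReal_toReal (FU_vol hU)])).hasSum.tendsto_sum_nat
    have h2 := h1.comp (tendsto_add_atTop_nat 1)
    rw [hs]
    exact h2
  -- Bonferroni
  have hb : ∀ (q : ℕ) (T : ℝ), ∑ k ∈ Finset.range (q + 1), (-1 : ℝ) ^ k / (Nat.factorial k : ℝ) *
      (NV T (fun _ : Fin k => U) : ℝ) = ∑ n ∈ Finset.Icc 1 (NZ T),
        (if (nbs T U n).card = 0 then 1 else (-1 : ℝ) ^ q * (((nbs T U n).card - 1).choose q : ℝ)) := by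
    intro q T
    unfold NV
    push_cast
    simp only [Finset.mul_sum]
    rw [Finset.sum_comm]
    refine Finset.sum_congr rfl fun n _ => ?_
    rw [← bonf]
    refine Finset.sum_congr rfl fun k _ => ?_
    rw [inj_const]
  have hhole : ∀ T : ℝ, (hole T U : ℝ) = ∑ n ∈ Finset.Icc 1 (NZ T), (if (nbs T U n).card = 0 then (1 : ℝ) else 0) := by
    intro T
    unfold hole
    rw [Finset.card_filter]
    push_cast
    refine Finset.sum_congr rfl fun n _ => ?_
    simp only [Finset.card_eq_zero]
  have hup : ∀ (q : ℕ) (T : ℝ), Even q → 1 < T → (hole T U : ℝ) / MT T ≤ sT q T := by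
    intro q T hq hT
    have hM := MT_pos hT
    have e : sT q T = (∑ k ∈ Finset.range (q + 1), (-1 : ℝ) ^ k / (Nat.factorial k : ℝ) *
        (NV T (fun _ : Fin k => U) : ℝ)) / MT T := by
      rw [hsT, Finset.sum_div]
      refine Finset.sum_congr rfl fun k _ => ?_
      ring
    rw [e, hb, hhole]
    apply div_le_div_of_nonneg_right _ hM.le
    refine Finset.sum_le_sum fun n _ => ?_
    split_ifs
    · exact le_rfl
    · rw [hq.neg_one_pow, one_mul]
      positivity
  have hlow : ∀ (q : ℕ) (T : ℝ), Odd q → 1 < T → sT q T ≤ (hole T U : ℝ) / MT T := by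
    intro q T hq hT
    have hM := MT_pos hT
    have e : sT q T = (∑ k ∈ Finset.range (q + 1), (-1 : ℝ) ^ k / (Nat.factorial k : ℝ) *
        (NV T (fun _ : Fin k => U) : ℝ)) / MT T := by
      rw [hsT, Finset.sum_div]
      refine Finset.sum_congr rfl fun k _ => ?_
      ring
    rw [e, hb, hhole]
    apply div_le_div_of_nonneg_right _ hM.le
    refine Finset.sum_le_sum fun n _ => ?_
    split_ifs
    · exact le_rfl
    · rw [hq.neg_one_pow, neg_one_mul]
      simp
  rw [Metric.tendsto_nhds]
  intro ε hε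
  have h1 := (Metric.tendsto_nhds.1 hsum) (ε / 2) (by linarith)
  obtain ⟨q0, hq0⟩ := h1.exists_forall_of_atTop
  have a1 := (Metric.tendsto_nhds.1 (hlim (2 * q0))) (ε / 2) (by linarith)
  have a2 := (Metric.tendsto_nhds.1 (hlim (2 * q0 + 1))) (ε / 2) (by linarith)
  filter_upwards [a1, a2, eventually_gt_atTop 1] with T b1 b2 hT
  have c1 := hup (2 * q0) T (even_two_mul q0) hT
  have c2 := hlow (2 * q0 + 1) T ⟨q0, rfl⟩ hT
  have d1 := hq0 (2 * q0) (by omega)
  have d2 := hq0 (2 * q0 + 1) (by omega)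
  rw [Real.dist_eq, abs_lt] at b1 b2 d1 d2 ⊢
  constructor
  · linarith [b2.1, d2.1]
  · linarith [b1.2, d1.2]

end

end Pool.Agent.J4.H44.KL
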