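import Pool.Agent.J4.H44.KL.Psd
import Pool.Agent.R320.KL.Cmb

/-! # Inclusion and exclusion for the integrals of the determinants over products of sets -/

set_option autoImplicit false

namespace Pool.Agent.J4.H44.KL

open MeasureTheory Set Filter Topology
open Pool.Agent.R320.KL (incl surj_equiv)

noncomputable section

lemma pi_integrable {k : ℕ} (V : Fin k → Set ℝ) (hV : ∀ i, volume (V i) ≠ ⊤) :
    IntegrableOn (fun u : Fin k → ℝ => (SM u).det) (Set.univ.pi V) := by
  have hfin : volume (Set.univ.pi V) ≠ ⊤ := by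
    rw [volume_pi_pi]
    exact ENNReal.prod_ne_top fun i _ => hV i
  refine Integrable.mono' (g := fun _ => (1 : ℝ)) (integrableOn_const hfin) det_cont.aestronglyMeasurable
    (ae_of_all _ fun u => ?_)
  rw [Real.norm_of_nonneg (det_nn u)]
  exact det_le_one u

lemma pi_indicator {k : ℕ} (V : Fin k → Set ℝ) (F : (Fin k → ℝ) → ℝ) (u : Fin k → ℝ) :
    (Set.univ.pi V).indicator F u = F u * ∏ j, (V j).indicator (fun _ => (1 : ℝ)) (u j) := by
  classical
  by_cases h : u ∈ Set.univ.pi V
  · rw [indicator_of_mem h, Finset.prod_eq_one, mul_one]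
    intro j _
    exact indicator_of_mem (h j (mem_univ j)) _
  · rw [indicator_of_notMem h]
    have h2 : ∃ j, u j ∉ V j := by
      by_contra hcon
      push Not at hcon
      exact h fun j _ => hcon j
    obtain ⟨j, hj⟩ := h2
    rw [Finset.prod_eq_zero (Finset.mem_univ j) (indicator_of_notMem hj _), mul_zero]

/-- products of sets, each of which is almost a disjoint union -/
lemma pi_ae_sum {k : ℕ} {κ : Type} [DecidableEq κ] (V : Fin k → Set ℝ) (hV : ∀ j, MeasurableSet (V j))
    (t : Fin k → Finset κ) (W : Fin k → κ → Set ℝ) (hW : ∀ j c, MeasurableSet (W j c))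
    (hWf : ∀ j c, volume (W j c) ≠ ⊤)
    (h : ∀ j, ∀ᵐ p : ℝ, (V j).indicator (fun _ => (1 : ℝ)) p = ∑ c ∈ t j, (W j c).indicator (fun _ => (1 : ℝ)) p) :
    ∫ u in Set.univ.pi V, (SM u).det =
      ∑ φ ∈ Fintype.piFinset t, ∫ u in Set.univ.pi (fun j => W j (φ j)), (SM u).det := by
  have h1 : ∀ᵐ u : Fin k → ℝ, ∀ j, (V j).indicator (fun _ => (1 : ℝ)) (u j) =
      ∑ c ∈ t j, (W j c).indicator (fun _ => (1 : ℝ)) (u j) := by
    rw [ae_all_iff]
    intro j
    exact (Measure.quasiMeasurePreserving_eval (fun _ : Fin k => (volume : Measure ℝ)) j).ae (h j)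
  rw [← integral_indicator (MeasurableSet.univ_pi hV)]
  have h2 : ∀ φ : Fin k → κ, ∫ u in Set.univ.pi (fun j => W j (φ j)), (SM u).det =
      ∫ u, (Set.univ.pi (fun j => W j (φ j))).indicator (fun u : Fin k → ℝ => (SM u).det) u := fun φ =>
    (integral_indicator (MeasurableSet.univ_pi fun j => hW j (φ j))).symm
  simp only [h2]
  rw [← integral_finsetSum]
  · refine integral_congr_ae ?_
    filter_upwards [h1] with u hu
    rw [pi_indicator]
    simp only [pi_indicator, hu]
    rw [Finset.prod_univ_sum, Finset.mul_sum]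
  · intro φ _
    exact (pi_integrable _ fun j => hWf j (φ j)).integrable_indicator (MeasurableSet.univ_pi fun j => hW j (φ j))

/-- symmetry -/
lemma SM_perm {k : ℕ} (σ : Equiv.Perm (Fin k)) (u : Fin k → ℝ) :
    (SM (fun i => u (σ i))).det = (SM u).det := by
  have h : SM (fun i => u (σ i)) = (SM u).submatrix (Equiv.optionCongr σ) (Equiv.optionCongr σ) := by
    ext i j
    cases i <;> cases j <;> rfl
  rw [h, Matrix.det_submatrix_equiv_self]

lemma pi_perm {k : ℕ} (σ : Equiv.Perm (Fin k)) (S : Fin k → Set ℝ) :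
    ∫ u in Set.univ.pi (fun j => S (σ j)), (SM u).det = ∫ u in Set.univ.pi S, (SM u).det := by
  have h := (volume_measurePreserving_piCongrLeft (fun _ : Fin k => ℝ) σ)
  have h1 := h.setIntegral_preimage_emb (MeasurableEquiv.measurableEmbedding _)
    (fun u : Fin k → ℝ => (SM u).det) (Set.univ.pi S)
  rw [← h1]
  have h3 : ∀ u : Fin k → ℝ, ∀ i, (MeasurableEquiv.piCongrLeft (fun _ : Fin k => ℝ) σ) u (σ i) = u i := by
    intro u i
    exact Equiv.piCongrLeft_apply_apply (fun _ : Fin k => ℝ) σ u i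
  have h2 : (⇑(MeasurableEquiv.piCongrLeft (fun _ : Fin k => ℝ) σ) ⁻¹' Set.univ.pi S) =
      Set.univ.pi (fun j => S (σ j)) := by
    ext u
    rw [mem_preimage, mem_univ_pi, mem_univ_pi]
    constructor
    · intro hu i
      have := hu (σ i)
      rwa [h3] at this
    · intro hu i
      have := hu (σ.symm i)
      rw [Equiv.apply_symm_apply] at this
      have h4 := h3 u (σ.symm i)
      rw [Equiv.apply_symm_apply] at h4
      rw [h4]
      exact this
  rw [h2]
  refine integral_congr_ae (ae_of_all _ fun u => ?_)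
  show (SM u).det = (SM ((MeasurableEquiv.piCongrLeft (fun _ : Fin k => ℝ) σ) u)).det
  rw [← SM_perm σ ((MeasurableEquiv.piCongrLeft (fun _ : Fin k => ℝ) σ) u)]
  congr 2
  funext i
  exact (h3 u i).symm

lemma ind_union {m : ℕ} (S : Fin m → Set ℝ) (hdis : ∀ i j, i ≠ j → volume (S i ∩ S j) = 0)
    (I : Finset (Fin m)) : ∀ᵐ p : ℝ, (⋃ i ∈ I, S i).indicator (fun _ => (1 : ℝ)) p =
      ∑ i ∈ I, (S i).indicator (fun _ => (1 : ℝ)) p := by
  classical
  have h1 : ∀ᵐ p : ℝ, ∀ i j, i ≠ j → p ∉ S i ∩ S j := by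
    rw [ae_all_iff]
    intro i
    rw [ae_all_iff]
    intro j
    by_cases hij : i = j
    · exact ae_of_all _ fun p h => absurd hij h
    · filter_upwards [measure_eq_zero_iff_ae_notMem.1 (hdis i j hij)] with p hp _
      exact hp
  filter_upwards [h1] with p hp
  by_cases h : p ∈ ⋃ i ∈ I, S i
  · rw [indicator_of_mem h]
    rw [mem_iUnion₂] at h
    obtain ⟨i, hi, hpi⟩ := h
    rw [Finset.sum_eq_single i]
    · rw [indicator_of_mem hpi]
    · intro j _ hji
      refine indicator_of_notMem (fun hpj => hp i j hji.symm ⟨hpi, hpj⟩) _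
    · intro h
      exact absurd hi h
  · rw [indicator_of_notMem h]
    symm
    apply Finset.sum_eq_zero
    intro i hi
    apply indicator_of_notMem
    intro hpi
    exact h (mem_iUnion₂.2 ⟨i, hi, hpi⟩)

/-- the inclusion-exclusion sum of the hole probabilities -/
lemma hole_sum (m : ℕ) : ∃ C : ℝ, 0 ≤ C ∧ ∀ (S : Fin m → Set ℝ) (h : ℝ), 0 ≤ h → h ≤ 1 →
    (∀ i, MeasurableSet (S i)) → (∀ i, volume (S i) ≤ ENNReal.ofReal h) →
    (∀ i j, i ≠ j → volume (S i ∩ S j) = 0) →
    |∑ I : Finset (Fin m), (-1 : ℝ) ^ I.card * HU (⋃ i ∈ I, S i) - ∫ u in Set.univ.pi S, (SM u).det| ≤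
      C * h ^ (m + 1) := by
  classical
  have hsum : Summable fun k : ℕ => (m : ℝ) ^ k / (Nat.factorial k : ℝ) := Real.summable_pow_div_factorial m
  refine ⟨∑' k : ℕ, (m : ℝ) ^ k / (Nat.factorial k : ℝ), tsum_nonneg fun k => by positivity, ?_⟩
  intro S h h0 h1 hS hvol hdis
  have hSf : ∀ i, volume (S i) ≠ ⊤ := fun i => ((hvol i).trans_lt ENNReal.ofReal_lt_top).ne
  have hUm : ∀ I : Finset (Fin m), MeasurableSet (⋃ i ∈ I, S i) := fun I =>
    Finset.measurableSet_biUnion I fun i _ => hS i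
  have hUv : ∀ I : Finset (Fin m), volume (⋃ i ∈ I, S i) ≤ ENNReal.ofReal (m * h) := by
    intro I
    refine (measure_biUnion_finset_le I S).trans ?_
    have e1 : ENNReal.ofReal (m * h) = ∑ _i : Fin m, ENNReal.ofReal h := by
      rw [Finset.sum_const, Finset.card_univ, Fintype.card_fin, nsmul_eq_mul, ENNReal.ofReal_mul (Nat.cast_nonneg m),
        ENNReal.ofReal_natCast]
    rw [e1]
    refine (Finset.sum_le_sum fun i _ => hvol i).trans ?_
    exact Finset.sum_le_sum_of_subset (Finset.subset_univ I)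
  obtain ⟨J, hJ⟩ : ∃ J : ℝ, J = ∫ u in Set.univ.pi S, (SM u).det := ⟨_, rfl⟩
  rw [← hJ]
  obtain ⟨t, ht⟩ : ∃ t : ℕ → ℝ, t = fun k => ∑ I : Finset (Fin m), (-1 : ℝ) ^ I.card *
    ((-1) ^ k / (Nat.factorial k : ℝ) * JU k (⋃ i ∈ I, S i)) := ⟨_, rfl⟩
  have hmh : 0 ≤ (m : ℝ) * h := by positivity
  have hHt : HasSum t (∑ I : Finset (Fin m), (-1 : ℝ) ^ I.card * HU (⋃ i ∈ I, S i)) := by
    rw [ht]
    refine hasSum_sum fun I _ => ?_
    exact (HU_summable (hUm I) hmh (hUv I)).hasSum.mul_left _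
  have hHJ : HasSum (fun k : ℕ => if k = m then J else 0) J := hasSum_ite_eq m J
  have hHd := hHt.sub hHJ
  -- the terms
  have hterm : ∀ k, t k = (-1) ^ k / (Nat.factorial k : ℝ) * ((-1) ^ m *
      ∑ w : Fin k → Fin m, if Function.Surjective w then ∫ u in Set.univ.pi (fun j => S (w j)), (SM u).det else 0) := by
    intro k
    rw [ht]
    show ∑ I : Finset (Fin m), (-1 : ℝ) ^ I.card *
      ((-1) ^ k / (Nat.factorial k : ℝ) * JU k (⋃ i ∈ I, S i)) = _
    rw [← incl (fun w : Fin k → Fin m => ∫ u in Set.univ.pi (fun j => S (w j)), (SM u).det), Finset.mul_sum,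
      Finset.mul_sum]
    refine Finset.sum_congr rfl fun I _ => ?_
    have e1 : JU k (⋃ i ∈ I, S i) = ∑ φ ∈ Fintype.piFinset (fun _ : Fin k => I),
        ∫ u in Set.univ.pi (fun j => S (φ j)), (SM u).det :=
      pi_ae_sum (fun _ => ⋃ i ∈ I, S i) (fun _ => hUm I) (fun _ => I) (fun _ c => S c) (fun _ c => hS c)
        (fun _ c => hSf c) (fun _ => ind_union S hdis I)
    have e2 : (-1 : ℝ) ^ I.card = (-1) ^ m * (-1) ^ (Iᶜ).card := by
      have h3 : I.card + (Iᶜ).card = m := by
        rw [Finset.card_add_card_compl, Fintype.card_fin]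
      have h4 : (-1 : ℝ) ^ (Iᶜ).card * (-1) ^ (Iᶜ).card = 1 := by
        rw [← pow_add, ← two_mul, pow_mul]
        norm_num
      calc (-1 : ℝ) ^ I.card = (-1 : ℝ) ^ I.card * ((-1 : ℝ) ^ (Iᶜ).card * (-1) ^ (Iᶜ).card) := by rw [h4, mul_one]
        _ = (-1 : ℝ) ^ (I.card + (Iᶜ).card) * (-1) ^ (Iᶜ).card := by rw [pow_add]; ring
        _ = _ := by rw [h3]
    rw [e1, e2]
    ring
  have hbd : ∀ k, ‖t k - (if k = m then J else 0)‖ ≤ h ^ (m + 1) * ((m : ℝ) ^ k / (Nat.factorial k : ℝ)) := by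
    intro k
    have hpos : 0 ≤ h ^ (m + 1) * ((m : ℝ) ^ k / (Nat.factorial k : ℝ)) := by positivity
    rw [hterm]
    rcases lt_trichotomy k m with hk | hk | hk
    · rw [if_neg hk.ne, Finset.sum_eq_zero, mul_zero, mul_zero, sub_zero, norm_zero]
      · exact hpos
      · intro w _
        rw [if_neg]
        intro hw
        have := Fintype.card_le_of_surjective w hw
        rw [Fintype.card_fin, Fintype.card_fin] at this
        omega
    · subst hk
      rw [if_pos rfl, surj_equiv rfl (fun w : Fin k → Fin k => ∫ u in Set.univ.pi (fun j => S (w j)), (SM u).det)]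
      have e3 : ∀ e : Fin k ≃ Fin k, ∫ u in Set.univ.pi (fun j => S (e j)), (SM u).det = J := by
        intro e
        rw [hJ]
        exact pi_perm e S
      simp only [e3]
      rw [Finset.sum_const, Finset.card_univ, Fintype.card_equiv (Equiv.refl _), Fintype.card_fin, nsmul_eq_mul]
      have e4 : (-1 : ℝ) ^ k / (Nat.factorial k : ℝ) * ((-1) ^ k * ((Nat.factorial k : ℝ) * J)) - J = 0 := by
        have h5 : (Nat.factorial k : ℝ) ≠ 0 := by positivity
        have h4 : (-1 : ℝ) ^ k * (-1) ^ k = 1 := by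
          rw [← pow_add, ← two_mul, pow_mul]
          norm_num
        calc (-1 : ℝ) ^ k / (Nat.factorial k : ℝ) * ((-1) ^ k * ((Nat.factorial k : ℝ) * J)) - J =
            ((-1 : ℝ) ^ k * (-1) ^ k) * ((Nat.factorial k : ℝ) * (Nat.factorial k : ℝ)⁻¹) * J - J := by ring
          _ = 0 := by rw [h4, mul_inv_cancel₀ h5]; ring
      rw [e4, norm_zero]
      exact hpos
    · rw [if_neg hk.ne', sub_zero, norm_mul, norm_mul, norm_div, norm_pow, norm_pow, norm_neg, norm_one, one_pow,
        one_pow, one_mul, Real.norm_of_nonneg (Nat.cast_nonneg _), div_mul_eq_mul_div, one_mul]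
      have h5 : ‖∑ w : Fin k → Fin m, if Function.Surjective w then
          ∫ u in Set.univ.pi (fun j => S (w j)), (SM u).det else 0‖ ≤ (m : ℝ) ^ k * h ^ k := by
        refine (norm_sum_le _ _).trans ?_
        have h6 : ∀ w ∈ (Finset.univ : Finset (Fin k → Fin m)), ‖if Function.Surjective w then
            ∫ u in Set.univ.pi (fun j => S (w j)), (SM u).det else 0‖ ≤ h ^ k := by
          intro w _
          obtain ⟨q1, q2⟩ := pi_int_bd (fun j => S (w j)) (fun j => hS _) (fun _ => h) (fun j => hvol _) (fun _ => h0)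
          rw [Finset.prod_const, Finset.card_univ, Fintype.card_fin] at q2
          split_ifs
          · rw [Real.norm_of_nonneg q1]
            exact q2
          · rw [norm_zero]
            positivity
        refine (Finset.sum_le_sum h6).trans (le_of_eq ?_)
        rw [Finset.sum_const, Finset.card_univ, Fintype.card_fun, Fintype.card_fin, Fintype.card_fin, nsmul_eq_mul]
        push_cast
        ring
      have h7 : h ^ k ≤ h ^ (m + 1) := pow_le_pow_of_le_one h0 h1 hk
      calc ‖∑ w : Fin k → Fin m, if Function.Surjective w then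
          ∫ u in Set.univ.pi (fun j => S (w j)), (SM u).det else 0‖ / (Nat.factorial k : ℝ) ≤
          ((m : ℝ) ^ k * h ^ k) / (Nat.factorial k : ℝ) := by gcongr
        _ ≤ ((m : ℝ) ^ k * h ^ (m + 1)) / (Nat.factorial k : ℝ) := by gcongr
        _ = _ := by ring
  have h8 := hHd.norm_le_of_bounded (hsum.hasSum.mul_left (h ^ (m + 1))) hbd
  rw [Real.norm_eq_abs] at h8
  rw [mul_comm]
  exact h8

end

end Pool.Agent.J4.H44.KL
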