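import Pool.Agent.J4.H44.KL.Det

/-! # Integrating out one variable of the sine kernel determinant over a long interval -/

set_option autoImplicit false

namespace Pool.Agent.J4.H44.KL

open MeasureTheory Set Filter Topology

noncomputable section

/-- integrals over boxes of one more variable -/
lemma int_cons_eq {m : ℕ} (F : (Fin (m + 1) → ℝ) → ℝ) (a b : ℝ) (x y : Fin m → ℝ) :
    ∫ w in Icc (Fin.cons a x : Fin (m + 1) → ℝ) (Fin.cons b y), F w =
      ∫ p in Icc a b ×ˢ Icc x y, F (Fin.cons p.1 p.2) := by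
  have h := (volume_preserving_piFinSuccAbove (fun _ : Fin (m + 1) => ℝ) 0).symm
  have h1 := h.setIntegral_preimage_emb (MeasurableEquiv.measurableEmbedding _) F
    (Icc (Fin.cons a x : Fin (m + 1) → ℝ) (Fin.cons b y))
  rw [← h1]
  have h3 : ∀ p : ℝ × (Fin m → ℝ), (MeasurableEquiv.piFinSuccAbove (fun _ : Fin (m + 1) => ℝ) 0).symm p =
      Fin.cons p.1 p.2 := by
    intro p
    exact Fin.insertNth_zero' (β := ℝ) p.1 p.2
  have h2 : (⇑(MeasurableEquiv.piFinSuccAbove (fun _ : Fin (m + 1) => ℝ) 0).symm ⁻¹'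
      Icc (Fin.cons a x : Fin (m + 1) → ℝ) (Fin.cons b y)) = Icc a b ×ˢ Icc x y := by
    ext p
    rw [mem_preimage, h3, mem_prod, mem_Icc, mem_Icc, mem_Icc, Fin.cons_le_cons, Fin.cons_le_cons]
    tauto
  rw [h2]
  simp only [h3]

lemma peetre (v c R : ℝ) (hc : |c| ≤ R) : 2 * (1 + (v - c) ^ 2)⁻¹ ≤ 4 * (1 + R ^ 2) * (1 + v ^ 2)⁻¹ := by
  have h1 : c ^ 2 ≤ R ^ 2 := by
    rw [← sq_abs]
    exact pow_le_pow_left₀ (abs_nonneg _) hc 2
  have h2 : 1 + v ^ 2 ≤ 2 * (1 + R ^ 2) * (1 + (v - c) ^ 2) := by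
    nlinarith [sq_nonneg (v - c), sq_nonneg (v - 2 * c), mul_nonneg (sq_nonneg R) (sq_nonneg (v - c)),
      sq_nonneg c]
  rw [← div_eq_mul_inv, ← div_eq_mul_inv, div_le_div_iff₀ (by positivity) (by positivity)]
  nlinarith

lemma bs_le {m : ℕ} (u : Fin m → ℝ) (v R : ℝ) (hR : 0 ≤ R) (hu : ∀ i, |u i| ≤ R) :
    bs u v ≤ (m + 1) * (4 * (1 + R ^ 2) * (1 + v ^ 2)⁻¹) := by
  unfold bs
  have h : ∀ o : Option (Fin m), Real.sinc (Real.pi * (v - pt u o)) ^ 2 ≤ 4 * (1 + R ^ 2) * (1 + v ^ 2)⁻¹ := by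
    intro o
    refine (sinc_sq_le _).trans (peetre v _ R ?_)
    cases o with
    | none => simpa [pt] using hR
    | some i => exact hu i
  refine (Finset.sum_le_sum fun o _ => h o).trans (le_of_eq ?_)
  rw [Finset.sum_const, Finset.card_univ, Fintype.card_option, Fintype.card_fin, nsmul_eq_mul]
  push_cast
  ring

lemma cons_cont {m : ℕ} : Continuous fun p : ℝ × (Fin m → ℝ) => (Fin.cons p.1 p.2 : Fin (m + 1) → ℝ) := by
  refine continuous_pi fun i => ?_
  refine Fin.cases ?_ (fun j => ?_) i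
  · simpa using continuous_fst
  · simp only [Fin.cons_succ]
    fun_prop

/-- the marginal -/
lemma int_cons {m : ℕ} (x y : Fin m → ℝ) : ∃ C : ℝ, 0 < C ∧ ∀ L : ℝ, 1 ≤ L →
    |(∫ w in Icc (Fin.cons (-L) x : Fin (m + 1) → ℝ) (Fin.cons L y), (SM w).det) -
      2 * L * ∫ u in Icc x y, (SM u).det| ≤ C := by
  obtain ⟨C0, hC0, hdif⟩ := det_cons_sub (m := m)
  obtain ⟨R, hR⟩ : ∃ R : ℝ, R = ∑ i, (|x i| + |y i|) := ⟨_, rfl⟩
  have hR0 : 0 ≤ R := by rw [hR]; positivity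
  have hRu : ∀ u ∈ Icc x y, ∀ i, |u i| ≤ R := by
    intro u hu i
    have h1 : |x i| + |y i| ≤ R := by
      rw [hR]
      exact Finset.single_le_sum (f := fun i => |x i| + |y i|) (fun j _ => by positivity) (Finset.mem_univ i)
    have h2 := hu.1 i
    have h3 := hu.2 i
    rw [abs_le]
    constructor
    · have := neg_abs_le (x i)
      have := abs_nonneg (y i)
      linarith
    · have := le_abs_self (y i)
      have := abs_nonneg (x i)
      linarith
  obtain ⟨D, hD⟩ : ∃ D : ℝ, D = C0 * ((m + 1) * (4 * (1 + R ^ 2))) := ⟨_, rfl⟩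
  have hD0 : 0 < D := by rw [hD]; positivity
  obtain ⟨V, hV⟩ : ∃ V : ℝ, V = (volume (Icc x y)).toReal := ⟨_, rfl⟩
  have hV0 : 0 ≤ V := by rw [hV]; exact ENNReal.toReal_nonneg
  refine ⟨D * Real.pi * V + 1, by positivity, fun L hL => ?_⟩
  rw [int_cons_eq]
  have hK : IsCompact (Icc (-L) L ×ˢ Icc x y) := isCompact_Icc.prod isCompact_Icc
  have i1 : IntegrableOn (fun p : ℝ × (Fin m → ℝ) => (SM (Fin.cons p.1 p.2 : Fin (m + 1) → ℝ)).det)
      (Icc (-L) L ×ˢ Icc x y) := (det_cont.comp cons_cont).continuousOn.integrableOn_compact hK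
  have i2 : IntegrableOn (fun p : ℝ × (Fin m → ℝ) => (1 : ℝ) * (SM p.2).det)
      (Icc (-L) L ×ˢ Icc x y) :=
    (continuous_const.mul (det_cont.comp continuous_snd)).continuousOn.integrableOn_compact hK
  have i3 : IntegrableOn (fun p : ℝ × (Fin m → ℝ) => (1 + p.1 ^ 2)⁻¹ * D)
      (Icc (-L) L ×ˢ Icc x y) := by
    refine Continuous.continuousOn ?_ |>.integrableOn_compact hK
    refine Continuous.mul (Continuous.inv₀ (by fun_prop) fun p => ?_) continuous_const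
    positivity
  have e1 : 2 * L * ∫ u in Icc x y, (SM u).det =
      ∫ p in Icc (-L) L ×ˢ Icc x y, (1 : ℝ) * (SM p.2).det := by
    have := setIntegral_prod_mul (μ := (volume : Measure ℝ)) (ν := (volume : Measure (Fin m → ℝ)))
      (fun _ : ℝ => (1 : ℝ)) (fun u : Fin m → ℝ => (SM u).det) (Icc (-L) L) (Icc x y)
    rw [Measure.volume_eq_prod, this]
    congr 1
    rw [setIntegral_const, smul_eq_mul, mul_one, measureReal_def, Real.volume_Icc, ENNReal.toReal_ofReal (by linarith)]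
    ring
  rw [e1, ← integral_sub i1 i2]
  have e2 : ∫ p in Icc (-L) L ×ˢ Icc x y, (1 + p.1 ^ 2)⁻¹ * D =
      (∫ v in Icc (-L) L, (1 + v ^ 2)⁻¹) * (V * D) := by
    have := setIntegral_prod_mul (μ := (volume : Measure ℝ)) (ν := (volume : Measure (Fin m → ℝ)))
      (fun v : ℝ => (1 + v ^ 2)⁻¹) (fun _ : Fin m → ℝ => D) (Icc (-L) L) (Icc x y)
    rw [Measure.volume_eq_prod, this]
    congr 1
    rw [setIntegral_const, smul_eq_mul, measureReal_def, hV]
  have h1 : ‖∫ p in Icc (-L) L ×ˢ Icc x y, ((SM (Fin.cons p.1 p.2 : Fin (m + 1) → ℝ)).det - 1 * (SM p.2).det)‖ ≤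
      ∫ p in Icc (-L) L ×ˢ Icc x y, (1 + p.1 ^ 2)⁻¹ * D := by
    refine norm_integral_le_of_norm_le i3 ?_
    rw [ae_restrict_iff' (measurableSet_Icc.prod measurableSet_Icc)]
    refine ae_of_all _ fun p hp => ?_
    rw [one_mul, Real.norm_eq_abs]
    refine (hdif p.2 p.1).trans ?_
    have h2 := bs_le p.2 p.1 R hR0 (hRu p.2 hp.2)
    calc C0 * bs p.2 p.1 ≤ C0 * ((m + 1) * (4 * (1 + R ^ 2) * (1 + p.1 ^ 2)⁻¹)) :=
          mul_le_mul_of_nonneg_left h2 hC0.le
      _ = _ := by rw [hD]; ring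
  rw [Real.norm_eq_abs, e2] at h1
  refine h1.trans ?_
  have h3 : ∫ v in Icc (-L) L, (1 + v ^ 2)⁻¹ ≤ Real.pi := by
    rw [← integral_univ_inv_one_add_sq]
    exact setIntegral_le_integral integrable_inv_one_add_sq (ae_of_all _ fun v => by positivity)
  have h4 : 0 ≤ V * D := by positivity
  nlinarith [mul_le_mul_of_nonneg_right h3 h4]

end

end Pool.Agent.J4.H44.KL
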