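import Mathlib

/-! # Injective choices from finite sets -/

set_option autoImplicit false

namespace Pool.Agent.J4.H44.KL

open Finset

/-- the injective choices of elements of the sets `A i` -/
noncomputable def inj {ι : Type} [Fintype ι] [DecidableEq ι] (A : ι → Finset ℕ) : Finset (ι → ℕ) := by
  classical exact (Fintype.piFinset A).filter Function.Injective

lemma mem_inj {ι : Type} [Fintype ι] [DecidableEq ι] {A : ι → Finset ℕ} {l : ι → ℕ} :
    l ∈ inj A ↔ (∀ i, l i ∈ A i) ∧ Function.Injective l := by
  unfold inj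
  rw [Finset.mem_filter, Fintype.mem_piFinset]

lemma inj_card_le {ι : Type} [Fintype ι] [DecidableEq ι] (A : ι → Finset ℕ) :
    (inj A).card ≤ ∏ i, (A i).card := by
  unfold inj
  refine (Finset.card_filter_le _ _).trans ?_
  rw [Fintype.card_piFinset]

lemma inj_cons {m : ℕ} (A : Fin m → Finset ℕ) (B : Finset ℕ) :
    (inj (Fin.cons B A : Fin (m + 1) → Finset ℕ)).card =
      ∑ l ∈ inj A, (B \ Finset.univ.image l).card := by
  classical
  rw [Finset.card_eq_sum_card_fiberwise (f := Fin.tail) (t := inj A)]
  · refine Finset.sum_congr rfl fun l hl => ?_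
    refine (Finset.card_bij (fun k _ => (Fin.cons k l : Fin (m + 1) → ℕ)) ?_ ?_ ?_).symm
    · intro k hk
      rw [Finset.mem_sdiff, Finset.mem_image] at hk
      rw [mem_inj] at hl
      rw [Finset.mem_filter, mem_inj]
      refine ⟨⟨fun i => ?_, ?_⟩, Fin.tail_cons _ _⟩
      · refine Fin.cases ?_ (fun j => ?_) i
        · simpa using hk.1
        · simpa using hl.1 j
      · rw [Fin.cons_injective_iff]
        refine ⟨?_, hl.2⟩
        rintro ⟨i, hi⟩
        exact hk.2 ⟨i, Finset.mem_univ i, hi⟩
    · intro k _ k' _ h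
      have := congrFun h 0
      simpa using this
    · intro w hw
      rw [Finset.mem_filter, mem_inj] at hw
      obtain ⟨⟨h1, h2⟩, h3⟩ := hw
      refine ⟨w 0, ?_, ?_⟩
      · rw [Finset.mem_sdiff, Finset.mem_image]
        refine ⟨by simpa using h1 0, ?_⟩
        rintro ⟨i, _, hi⟩
        rw [← h3] at hi
        have := h2 hi
        exact absurd this (Fin.succ_ne_zero i)
      · rw [← h3]
        exact Fin.cons_self_tail w
  · intro w hw
    rw [Finset.mem_coe, mem_inj] at hw
    rw [Finset.mem_coe, mem_inj]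
    refine ⟨fun i => hw.1 i.succ, ?_⟩
    intro i j hij
    exact Fin.succ_injective _ (hw.2 hij)

lemma inj_cons_near {m : ℕ} (A : Fin m → Finset ℕ) (B : Finset ℕ) (r : ℝ) :
    |((inj (Fin.cons B A : Fin (m + 1) → Finset ℕ)).card : ℝ) - r * (inj A).card| ≤
      (inj A).card * (|(B.card : ℝ) - r| + m) := by
  classical
  rw [inj_cons]
  push_cast
  have h1 : r * ((inj A).card : ℝ) = ∑ _l ∈ inj A, r := by rw [Finset.sum_const, nsmul_eq_mul, mul_comm]
  rw [h1, ← Finset.sum_sub_distrib]
  refine (Finset.abs_sum_le_sum_abs _ _).trans ?_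
  have h2 : ∀ l ∈ inj A, |((B \ Finset.univ.image l).card : ℝ) - r| ≤ |(B.card : ℝ) - r| + m := by
    intro l _
    have h3 : (B \ Finset.univ.image l).card ≤ B.card := Finset.card_le_card Finset.sdiff_subset
    have h4 : B.card ≤ (B \ Finset.univ.image l).card + m := by
      have h5 := Finset.le_card_sdiff (Finset.univ.image l) B
      have h6 : (Finset.univ.image l).card ≤ m := by
        refine Finset.card_image_le.trans ?_
        rw [Finset.card_univ, Fintype.card_fin]
      omega
    have h3' : ((B \ Finset.univ.image l).card : ℝ) ≤ B.card := by exact_mod_cast h3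
    have h4' : (B.card : ℝ) ≤ (B \ Finset.univ.image l).card + m := by exact_mod_cast h4
    have h7 : (0 : ℝ) ≤ m := Nat.cast_nonneg m
    have h8 := le_abs_self ((B.card : ℝ) - r)
    have h9 := neg_abs_le ((B.card : ℝ) - r)
    rw [abs_le]
    constructor <;> linarith
  refine (Finset.sum_le_sum h2).trans (le_of_eq ?_)
  rw [Finset.sum_const, nsmul_eq_mul]

end Pool.Agent.J4.H44.KL
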