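import Pool.Agent.R320.KL.Nk
import Pool.Agent.J4.H44.KL.Tup
import Pool.Agent.J4.H44.KL.Int

/-! # Moments of the numbers of neighbours in fixed intervals, and one more variable (RH) -/

set_option autoImplicit false

namespace Pool.Agent.J4.H44.KL

open Filter Topology MeasureTheory Set
open SG (ord NZ)
open SP (RHs)
open Pool.Agent.Y743.CL (lm log_nat bigT)
open Pool.Agent.R320.KL (Cs DD XX momE momX Nk two_top two_pow_add pow_le_one_add)

noncomputable section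

lemma NZ_le : ∃ C : ℝ, 0 < C ∧ ∀ᶠ T : ℝ in atTop, (NZ T : ℝ) ≤ C * (T * Real.log T) := by
  obtain ⟨C3, T3, hC3, hT3, hup⟩ := LG.GapAux.NZ_up
  refine ⟨C3, hC3, ?_⟩
  filter_upwards [eventually_ge_atTop (2 * T3), eventually_ge_atTop 10] with T h1 h2
  have a1 := hup (T / 2) (by linarith)
  have e2 : 2 * (T / 2) = T := by ring
  rw [e2] at a1
  refine a1.trans ?_
  apply mul_le_mul_of_nonneg_left _ hC3.le
  have b1 : Real.log (T / 2) ≤ Real.log T := Real.log_le_log (by linarith) (by linarith)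
  have b2 : 0 ≤ T / 2 := by linarith
  have b3 : 0 ≤ Real.log T := Real.log_nonneg (by linarith)
  calc T / 2 * Real.log (T / 2) ≤ T / 2 * Real.log T := by gcongr
    _ ≤ T * Real.log T := mul_le_mul_of_nonneg_right (by linarith) b3

lemma abs3_pow (a b c : ℝ) (k : ℕ) :
    (a + (b - c)) ^ (2 * k) ≤ 3 ^ (2 * k) * (a ^ (2 * k) + b ^ (2 * k) + c ^ (2 * k)) := by
  have h1 : |a + (b - c)| ≤ 3 * max (max |a| |b|) |c| := by
    have h2 := le_max_left |a| |b|
    have h3 := le_max_right |a| |b|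
    have h4 := le_max_left (max |a| |b|) |c|
    have h5 := le_max_right (max |a| |b|) |c|
    have h6 := abs_add_le a (b - c)
    have h7 := abs_sub b c
    linarith
  have ha' : 0 ≤ a ^ (2 * k) := (even_two_mul k).pow_nonneg _
  have hb' : 0 ≤ b ^ (2 * k) := (even_two_mul k).pow_nonneg _
  have hc' : 0 ≤ c ^ (2 * k) := (even_two_mul k).pow_nonneg _
  have h2 : (max (max |a| |b|) |c|) ^ (2 * k) ≤ a ^ (2 * k) + b ^ (2 * k) + c ^ (2 * k) := by
    rcases max_cases (max |a| |b|) |c| with h | h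
    · rw [h.1]
      rcases max_cases |a| |b| with h' | h'
      · rw [h'.1, (even_two_mul k).pow_abs]; linarith
      · rw [h'.1, (even_two_mul k).pow_abs]; linarith
    · rw [h.1, (even_two_mul k).pow_abs]; linarith
  rw [← (even_two_mul k).pow_abs]
  calc |a + (b - c)| ^ (2 * k) ≤ (3 * max (max |a| |b|) |c|) ^ (2 * k) :=
        pow_le_pow_left₀ (abs_nonneg _) h1 _
    _ = 3 ^ (2 * k) * (max (max |a| |b|) |c|) ^ (2 * k) := mul_pow _ _ _
    _ ≤ _ := mul_le_mul_of_nonneg_left h2 (by positivity)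

/-- the moments of the centred numbers of neighbours in fixed intervals -/
lemma momD (hRH : RHs) (j : ℕ) : ∃ C : ℝ, 0 < C ∧ ∀ L : ℝ, 1 ≤ L → ∀ᶠ T : ℝ in atTop,
    ∀ x y : ℝ, |x| ≤ L → |y| ≤ L → x ≤ y →
    ∑ n ∈ Finset.Icc 1 (NZ T), DD T x y n ^ (2 * 2 ^ j) ≤
      C * (1 + Real.log L) ^ (2 ^ j) * (T * Real.log T) := by
  obtain ⟨C1, hC1, h1⟩ := momE hRH j 1 le_rfl
  obtain ⟨C2, hC2, h2⟩ := momX hRH j 1 le_rfl
  obtain ⟨M0, hM0⟩ := (h1.and h2).exists_forall_of_atTop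
  obtain ⟨K, hK⟩ : ∃ K : ℝ, K = 1 + Real.log (2 * (M0 : ℝ) + 6) := ⟨_, rfl⟩
  have hM0r : (0 : ℝ) ≤ M0 := Nat.cast_nonneg _
  have hK1 : 1 ≤ K := by
    rw [hK]
    have := Real.log_nonneg (show (1 : ℝ) ≤ 2 * (M0 : ℝ) + 6 by linarith)
    linarith
  refine ⟨3 ^ (2 * 2 ^ j) * (C1 + 2 * (C2 * K ^ (2 ^ j))), by positivity, fun L hL => ?_⟩
  obtain ⟨M, hM⟩ : ∃ M : ℕ, M = max M0 (⌈L⌉₊ + 1) := ⟨_, rfl⟩
  have hML : L ≤ (M : ℝ) - 1 := by
    have a1 := Nat.le_ceil L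
    have a2 : ⌈L⌉₊ + 1 ≤ M := by rw [hM]; exact le_max_right _ _
    have a3 : ((⌈L⌉₊ : ℝ)) + 1 ≤ M := by exact_mod_cast a2
    linarith
  have hMM0 : M0 ≤ M := by rw [hM]; exact le_max_left _ _
  have hMup : (M : ℝ) ≤ M0 + L + 2 := by
    have a1 := (Nat.ceil_lt_add_one (by linarith : (0 : ℝ) ≤ L)).le
    rcases le_total M0 (⌈L⌉₊ + 1) with h | h
    · rw [hM, max_eq_right h]
      push_cast
      linarith
    · rw [hM, max_eq_left h]
      linarith
  have hlM : Real.log ((2 * M : ℕ) : ℝ) ≤ K * (1 + Real.log L) := by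
    have a1 : ((2 * M : ℕ) : ℝ) ≤ (2 * (M0 : ℝ) + 6) * L := by
      push_cast
      nlinarith
    have a0 : (0 : ℝ) < ((2 * M : ℕ) : ℝ) := by push_cast; linarith
    have a2 := Real.log_le_log a0 a1
    rw [Real.log_mul (by positivity) (by positivity)] at a2
    have a3 := Real.log_nonneg hL
    have a4 : Real.log (2 * (M0 : ℝ) + 6) = K - 1 := by rw [hK]; ring
    rw [a4] at a2
    nlinarith
  have hlM0 : 0 ≤ Real.log ((2 * M : ℕ) : ℝ) := by
    apply Real.log_nonneg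
    push_cast
    linarith
  have hlog : ∀ᶠ T : ℝ in atTop, ((2 * M : ℕ) : ℝ) * Real.log (2 * M : ℕ) ≤ 1 * Real.log T := by
    simp only [one_mul]
    exact Real.tendsto_log_atTop.eventually_ge_atTop _
  filter_upwards [hlog, eventually_ge_atTop 1] with T hT hT1
  intro x y hx hy hxy
  obtain ⟨g1, g2⟩ := hM0 M hMM0
  have k1 := g1 T hT1 hT x y (hx.trans hML) (hy.trans hML) hxy
  have k2 := g2 T hT1 hT y (hy.trans (by linarith))
  have k3 := g2 T hT1 hT x (hx.trans (by linarith))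
  have hTL : 0 ≤ T * Real.log T := by
    have := Real.log_nonneg hT1
    positivity
  have hlm : lm (2 * M) ^ (2 * 2 ^ j) ≤ K ^ (2 ^ j) * (1 + Real.log L) ^ (2 ^ j) := by
    rw [pow_mul, Pool.Agent.R320.JL.lm_sq hlM0, ← mul_pow]
    apply pow_le_pow_left₀ (by positivity)
    have hpi := Real.pi_gt_three
    have h9 : (1 : ℝ) ≤ Real.pi ^ 2 := by nlinarith
    refine le_trans (div_le_self hlM0 h9) hlM
  have hLL : (1 : ℝ) ≤ (1 + Real.log L) ^ (2 ^ j) := by
    apply one_le_pow₀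
    have := Real.log_nonneg hL
    linarith
  have k4 : C2 * lm (2 * M) ^ (2 * 2 ^ j) * (T * Real.log T) ≤
      C2 * (K ^ (2 ^ j) * (1 + Real.log L) ^ (2 ^ j)) * (T * Real.log T) := by gcongr
  have k5 : C1 * (T * Real.log T) ≤ C1 * (1 + Real.log L) ^ (2 ^ j) * (T * Real.log T) := by
    have : C1 ≤ C1 * (1 + Real.log L) ^ (2 ^ j) := le_mul_of_one_le_right hC1.le hLL
    gcongr
  have hterm : ∀ n ∈ Finset.Icc 1 (NZ T), DD T x y n ^ (2 * 2 ^ j) ≤ 3 ^ (2 * 2 ^ j) *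
      ((((Cs T x y n).card : ℝ) - (y - x) - (XX T y n - XX T x n)) ^ (2 * 2 ^ j) +
        XX T y n ^ (2 * 2 ^ j) + XX T x n ^ (2 * 2 ^ j)) := by
    intro n _
    have h := abs3_pow (((Cs T x y n).card : ℝ) - (y - x) - (XX T y n - XX T x n)) (XX T y n) (XX T x n) (2 ^ j)
    refine le_trans (le_of_eq ?_) h
    unfold DD
    congr 1
    ring
  refine (Finset.sum_le_sum hterm).trans ?_
  rw [← Finset.mul_sum, Finset.sum_add_distrib, Finset.sum_add_distrib]
  calc 3 ^ (2 * 2 ^ j) * (∑ n ∈ Finset.Icc 1 (NZ T),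
          (((Cs T x y n).card : ℝ) - (y - x) - (XX T y n - XX T x n)) ^ (2 * 2 ^ j) +
        ∑ n ∈ Finset.Icc 1 (NZ T), XX T y n ^ (2 * 2 ^ j) +
        ∑ n ∈ Finset.Icc 1 (NZ T), XX T x n ^ (2 * 2 ^ j)) ≤
      3 ^ (2 * 2 ^ j) * (C1 * (1 + Real.log L) ^ (2 ^ j) * (T * Real.log T) +
        C2 * (K ^ (2 ^ j) * (1 + Real.log L) ^ (2 ^ j)) * (T * Real.log T) +
        C2 * (K ^ (2 ^ j) * (1 + Real.log L) ^ (2 ^ j)) * (T * Real.log T)) := by
        apply mul_le_mul_of_nonneg_left _ (by positivity)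
        linarith
    _ = _ := by ring

/-- all moments of the numbers of neighbours in fixed intervals -/
lemma momK (hRH : RHs) (p : ℕ) (R : ℝ) (hR : 1 ≤ R) : ∃ C : ℝ, 0 < C ∧ ∀ᶠ T : ℝ in atTop,
    ∑ n ∈ Finset.Icc 1 (NZ T), ((Cs T (-R) R n).card : ℝ) ^ p ≤ C * (T * Real.log T) := by
  obtain ⟨C1, hC1, h1⟩ := momD hRH p
  obtain ⟨C3, hC3, h3⟩ := NZ_le
  have hl := Real.log_nonneg hR
  refine ⟨C3 * (1 + 2 ^ (2 * 2 ^ p) * (2 * R) ^ (2 * 2 ^ p)) +
    2 ^ (2 * 2 ^ p) * (C1 * (1 + Real.log R) ^ (2 ^ p)), by positivity, ?_⟩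
  filter_upwards [h1 R hR, h3, eventually_ge_atTop 1] with T k1 k3 hT1
  have k2 := k1 (-R) R (by rw [abs_neg, abs_of_nonneg (by linarith)]) (by rw [abs_of_nonneg (by linarith)])
    (by linarith)
  have hTL : 0 ≤ T * Real.log T := by
    have := Real.log_nonneg hT1
    positivity
  have hterm : ∀ n ∈ Finset.Icc 1 (NZ T), ((Cs T (-R) R n).card : ℝ) ^ p ≤
      (1 + 2 ^ (2 * 2 ^ p) * (2 * R) ^ (2 * 2 ^ p)) + 2 ^ (2 * 2 ^ p) * DD T (-R) R n ^ (2 * 2 ^ p) := by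
    intro n _
    have h4 : p ≤ 2 * 2 ^ p := by
      have : p < 2 ^ p := Nat.lt_two_pow_self
      omega
    have h5 := pow_le_one_add (Nat.cast_nonneg (α := ℝ) (Cs T (-R) R n).card) h4
    have h6 := two_pow_add (x := DD T (-R) R n) (y := -(2 * R)) (2 ^ p)
    have h7 : DD T (-R) R n - -(2 * R) = ((Cs T (-R) R n).card : ℝ) := by
      unfold DD
      ring
    rw [h7, (even_two_mul (2 ^ p)).neg_pow] at h6
    linarith
  refine (Finset.sum_le_sum hterm).trans ?_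
  rw [Finset.sum_add_distrib, Finset.sum_const, ← Finset.mul_sum, Nat.card_Icc, Nat.add_sub_cancel,
    nsmul_eq_mul]
  have k4 : (NZ T : ℝ) * (1 + 2 ^ (2 * 2 ^ p) * (2 * R) ^ (2 * 2 ^ p)) ≤
      C3 * (T * Real.log T) * (1 + 2 ^ (2 * 2 ^ p) * (2 * R) ^ (2 * 2 ^ p)) :=
    mul_le_mul_of_nonneg_right k3 (by positivity)
  have k5 : 2 ^ (2 * 2 ^ p) * ∑ n ∈ Finset.Icc 1 (NZ T), DD T (-R) R n ^ (2 * 2 ^ p) ≤
      2 ^ (2 * 2 ^ p) * (C1 * (1 + Real.log R) ^ (2 ^ p) * (T * Real.log T)) :=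
    mul_le_mul_of_nonneg_left k2 (by positivity)
  calc _ ≤ C3 * (T * Real.log T) * (1 + 2 ^ (2 * 2 ^ p) * (2 * R) ^ (2 * 2 ^ p)) +
        2 ^ (2 * 2 ^ p) * (C1 * (1 + Real.log R) ^ (2 ^ p) * (T * Real.log T)) := add_le_add k4 k5
    _ = _ := by ring

/-- the counts as sums over the zeros -/
lemma Nk_inj {ι : Type} [Fintype ι] [DecidableEq ι] (T : ℝ) (x y : ι → ℝ) :
    Nk T x y = ∑ n ∈ Finset.Icc 1 (NZ T), (inj (fun i => Cs T (x i) (y i) n)).card := by
  classical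
  obtain ⟨Φ, hΦ⟩ : ∃ Φ : Finset (Σ _ : ℕ, (ι → ℕ)), Φ = (Finset.Icc 1 (NZ T)).sigma
    (fun n => inj (fun i : ι => Cs T (x i) (y i) n)) := ⟨_, rfl⟩
  obtain ⟨g, hg⟩ : ∃ g : (Σ _ : ℕ, (ι → ℕ)) → (Option ι → ℕ), g = fun z o => o.elim z.1 z.2 := ⟨_, rfl⟩
  have hginj : Function.Injective g := by
    rintro ⟨n, l⟩ ⟨n', l'⟩ h
    rw [hg] at h
    have h1 : n = n' := congrFun h none
    have h2 : l = l' := funext fun i => congrFun h (some i)
    subst h1 h2
    rfl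
  have hset : {j : Option ι → ℕ | Function.Injective j ∧ (∀ i, 1 ≤ j i ∧ ord (j i) ≤ T) ∧
      ∀ i : ι, (ord (j (some i)) - ord (j none)) * (Real.log T / (2 * Real.pi)) ∈ Icc (x i) (y i)} =
      ((Φ.image g : Finset (Option ι → ℕ)) : Set (Option ι → ℕ)) := by
    ext j
    simp only [Set.mem_ofPred_eq, Finset.coe_image, mem_image, Finset.mem_coe]
    constructor
    · rintro ⟨h1, h2, h3⟩
      refine ⟨⟨j none, fun i => j (some i)⟩, ?_, ?_⟩
      · rw [hΦ, Finset.mem_sigma, mem_inj]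
        refine ⟨?_, fun i => ?_, ?_⟩
        · rw [Finset.mem_Icc]
          exact ⟨(h2 none).1, (SG.ord_le_iff (h2 none).1 _).mp (h2 none).2⟩
        · unfold Cs
          rw [Finset.mem_filter, Finset.mem_Icc]
          refine ⟨⟨(h2 (some i)).1, (SG.ord_le_iff (h2 (some i)).1 _).mp (h2 (some i)).2⟩, ?_, h3 i⟩
          intro h4
          have := h1 h4
          simp at this
        · intro i i' hii
          have := h1 hii
          simpa using this
      · rw [hg]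
        funext o
        cases o <;> rfl
    · rintro ⟨⟨n, l⟩, h1, rfl⟩
      rw [hΦ, Finset.mem_sigma, mem_inj, Finset.mem_Icc] at h1
      obtain ⟨⟨h2, h3⟩, h4, h4'⟩ := h1
      have h5 : ∀ i : ι, (1 ≤ l i ∧ l i ≤ NZ T) ∧ l i ≠ n ∧
          (ord (l i) - ord n) * (Real.log T / (2 * Real.pi)) ∈ Icc (x i) (y i) := by
        intro i
        have := h4 i
        unfold Cs at this
        rw [Finset.mem_filter, Finset.mem_Icc] at this
        exact this
      have h2' : 1 ≤ n := h2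
      rw [hg]
      refine ⟨?_, ?_, ?_⟩
      · intro o o' hoo
        cases o with
        | none =>
          cases o' with
          | none => rfl
          | some i' => exact absurd hoo.symm (h5 i').2.1
        | some i =>
          cases o' with
          | none => exact absurd hoo (h5 i).2.1
          | some i' =>
            have h6 : l i = l i' := hoo
            rw [h4' h6]
      · intro o
        cases o with
        | none => exact ⟨h2', (SG.ord_le_iff h2' _).mpr h3⟩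
        | some i => exact ⟨(h5 i).1.1, (SG.ord_le_iff (h5 i).1.1 _).mpr (h5 i).1.2⟩
      · intro i
        exact (h5 i).2.2
  unfold Nk
  rw [hset, Set.ncard_coe_finset, Finset.card_image_of_injective _ hginj, hΦ, Finset.card_sigma]

lemma Cs_mono {T x y x' y' : ℝ} (hx : x' ≤ x) (hy : y ≤ y') (n : ℕ) : Cs T x y n ⊆ Cs T x' y' n := by
  intro l hl
  unfold Cs at hl ⊢
  rw [Finset.mem_filter] at hl ⊢
  exact ⟨hl.1, hl.2.1, hx.trans hl.2.2.1, hl.2.2.2.trans hy⟩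

lemma inj_le_pow {m : ℕ} {T R : ℝ} (x y : Fin m → ℝ) (hx : ∀ i, -R ≤ x i) (hy : ∀ i, y i ≤ R) (n : ℕ) :
    ((inj (fun i => Cs T (x i) (y i) n)).card : ℝ) ≤ ((Cs T (-R) R n).card : ℝ) ^ m := by
  have h1 := inj_card_le (fun i => Cs T (x i) (y i) n)
  have h2 : ∏ i, (Cs T (x i) (y i) n).card ≤ ∏ _i : Fin m, (Cs T (-R) R n).card :=
    Finset.prod_le_prod' fun i _ => Finset.card_le_card (Cs_mono (hx i) (hy i) n)
  rw [Finset.prod_const, Finset.card_univ, Fintype.card_fin] at h2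
  exact_mod_cast h1.trans h2

/-- **One more variable in a long interval.** -/
theorem marg (hRH : RHs) {m : ℕ} (x y : Fin m → ℝ) : ∃ C : ℝ, 0 < C ∧ ∀ L : ℝ, 1 ≤ L → ∀ᶠ T : ℝ in atTop,
    |(Nk T (Fin.cons (-L) x : Fin (m + 1) → ℝ) (Fin.cons L y) : ℝ) - 2 * L * Nk T x y| ≤
      C * Real.sqrt (1 + Real.log L) * (T * Real.log T) := by
  obtain ⟨R, hR⟩ : ∃ R : ℝ, R = 1 + ∑ i, (|x i| + |y i|) := ⟨_, rfl⟩
  have hs : ∀ i, |x i| + |y i| ≤ R := by
    intro i
    have h1 : |x i| + |y i| ≤ ∑ i, (|x i| + |y i|) :=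
      Finset.single_le_sum (f := fun i => |x i| + |y i|) (fun j _ => by positivity) (Finset.mem_univ i)
    linarith
  have hR1 : 1 ≤ R := by
    rw [hR]
    have : 0 ≤ ∑ i, (|x i| + |y i|) := by positivity
    linarith
  have hx : ∀ i, -R ≤ x i := by
    intro i
    have := neg_abs_le (x i)
    have := abs_nonneg (y i)
    linarith [hs i]
  have hy : ∀ i, y i ≤ R := by
    intro i
    have := le_abs_self (y i)
    have := abs_nonneg (x i)
    linarith [hs i]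
  obtain ⟨C1, hC1, h1⟩ := momK hRH (m * 2) R hR1
  obtain ⟨C2, hC2, h2⟩ := momK hRH m R hR1
  obtain ⟨C3, hC3, h3⟩ := momD hRH 0
  refine ⟨C1 + C3 + m * C2, by positivity, fun L hL => ?_⟩
  filter_upwards [h1, h2, h3 L hL, eventually_ge_atTop 1] with T k1 k2 k3 hT1
  have k4 := k3 (-L) L (by rw [abs_neg, abs_of_nonneg (by linarith)]) (by rw [abs_of_nonneg (by linarith)])
    (by linarith)
  have hTL : 0 ≤ T * Real.log T := by
    have := Real.log_nonneg hT1
    positivity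
  obtain ⟨s, hsd⟩ : ∃ s : ℝ, s = Real.sqrt (1 + Real.log L) := ⟨_, rfl⟩
  have hlL := Real.log_nonneg hL
  have hs2 : s ^ 2 = 1 + Real.log L := by rw [hsd]; exact Real.sq_sqrt (by linarith)
  have hs1 : 1 ≤ s := by rw [hsd]; exact Real.one_le_sqrt.2 (by linarith)
  have hs0 : 0 < s := by linarith
  rw [← hsd, Nk_inj, Nk_inj]
  have e1 : ∀ n, (fun i => Cs T ((Fin.cons (-L) x : Fin (m + 1) → ℝ) i) ((Fin.cons L y : Fin (m + 1) → ℝ) i) n) =
      Fin.cons (Cs T (-L) L n) (fun i => Cs T (x i) (y i) n) := by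
    intro n
    funext i
    refine Fin.cases ?_ (fun j => ?_) i
    · simp
    · simp
  simp only [e1]
  push_cast
  rw [Finset.mul_sum, ← Finset.sum_sub_distrib]
  refine (Finset.abs_sum_le_sum_abs _ _).trans ?_
  have hterm : ∀ n ∈ Finset.Icc 1 (NZ T),
      |((inj (Fin.cons (Cs T (-L) L n) (fun i => Cs T (x i) (y i) n) : Fin (m + 1) → Finset ℕ)).card : ℝ) -
        2 * L * (inj (fun i => Cs T (x i) (y i) n)).card| ≤
      (s / 2 * ((Cs T (-R) R n).card : ℝ) ^ (m * 2) + 1 / (2 * s) * DD T (-L) L n ^ (2 * 2 ^ 0)) +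
        m * ((Cs T (-R) R n).card : ℝ) ^ m := by
    intro n _
    refine (inj_cons_near _ _ (2 * L)).trans ?_
    have q1 := inj_le_pow (T := T) x y hx hy n
    have q2 : ((Cs T (-L) L n).card : ℝ) - 2 * L = DD T (-L) L n := by
      unfold DD
      ring
    rw [q2]
    obtain ⟨P, hP⟩ : ∃ P : ℝ, P = ((Cs T (-R) R n).card : ℝ) ^ m := ⟨_, rfl⟩
    obtain ⟨D, hD⟩ : ∃ D : ℝ, D = DD T (-L) L n := ⟨_, rfl⟩
    rw [pow_mul, ← hP, ← hD]
    rw [← hP] at q1
    have hm0 : (0 : ℝ) ≤ m := Nat.cast_nonneg m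
    have hD0 := abs_nonneg D
    have q3 : ((inj (fun i => Cs T (x i) (y i) n)).card : ℝ) * (|D| + m) ≤ P * (|D| + m) :=
      mul_le_mul_of_nonneg_right q1 (by positivity)
    refine q3.trans ?_
    have q4 : P * |D| ≤ s / 2 * P ^ 2 + 1 / (2 * s) * D ^ (2 * 2 ^ 0) := by
      have q5 : D ^ (2 * 2 ^ 0) = |D| ^ 2 := by rw [sq_abs]; norm_num
      rw [q5]
      have q6 : s / 2 * P ^ 2 + 1 / (2 * s) * |D| ^ 2 - P * |D| = (s * P - |D|) ^ 2 / (2 * s) := by
        field_simp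
        ring
      have q7 : 0 ≤ (s * P - |D|) ^ 2 / (2 * s) := by positivity
      linarith
    have q8 : P * (|D| + m) = P * |D| + m * P := by ring
    rw [q8]
    linarith
  refine (Finset.sum_le_sum hterm).trans ?_
  rw [Finset.sum_add_distrib, Finset.sum_add_distrib, ← Finset.mul_sum, ← Finset.mul_sum, ← Finset.mul_sum]
  have r1 : s / 2 * ∑ n ∈ Finset.Icc 1 (NZ T), ((Cs T (-R) R n).card : ℝ) ^ (m * 2) ≤
      s / 2 * (C1 * (T * Real.log T)) := mul_le_mul_of_nonneg_left k1 (by positivity)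
  have r2 : 1 / (2 * s) * ∑ n ∈ Finset.Icc 1 (NZ T), DD T (-L) L n ^ (2 * 2 ^ 0) ≤
      1 / (2 * s) * (C3 * (1 + Real.log L) ^ (2 ^ 0) * (T * Real.log T)) :=
    mul_le_mul_of_nonneg_left k4 (by positivity)
  have r3 : (m : ℝ) * ∑ n ∈ Finset.Icc 1 (NZ T), ((Cs T (-R) R n).card : ℝ) ^ m ≤
      m * (C2 * (T * Real.log T)) := mul_le_mul_of_nonneg_left k2 (Nat.cast_nonneg m)
  have r4 : 1 / (2 * s) * (C3 * (1 + Real.log L) ^ (2 ^ 0) * (T * Real.log T)) =
      s / 2 * (C3 * (T * Real.log T)) := by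
    rw [← hs2]
    field_simp
    norm_num
  rw [r4] at r2
  have r5 : (m : ℝ) * (C2 * (T * Real.log T)) ≤ s * (m * (C2 * (T * Real.log T))) :=
    le_mul_of_one_le_left (by positivity) hs1
  have r6 : 0 ≤ s / 2 * (C1 * (T * Real.log T)) := by positivity
  have r7 : 0 ≤ s / 2 * (C3 * (T * Real.log T)) := by positivity
  calc _ ≤ s / 2 * (C1 * (T * Real.log T)) + s / 2 * (C3 * (T * Real.log T)) +
        s * (m * (C2 * (T * Real.log T))) := by linarith
    _ ≤ 2 * (s / 2 * (C1 * (T * Real.log T))) + 2 * (s / 2 * (C3 * (T * Real.log T))) +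
        s * (m * (C2 * (T * Real.log T))) := by linarith
    _ = _ := by ring

end

end Pool.Agent.J4.H44.KL
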