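import Pool.Agent.J4.H44.KL.Int

/-! # The sine kernel is positive: the determinants lie in `[0, 1]` -/

set_option autoImplicit false

namespace Pool.Agent.J4.H44.KL

open MeasureTheory Set Filter Topology

noncomputable section

lemma sinc_int (t : ℝ) : Real.sinc (Real.pi * t) = ∫ x in (-(1 / 2) : ℝ)..(1 / 2), Real.cos (2 * Real.pi * t * x) := by
  by_cases ht : t = 0
  · subst ht
    simp
    norm_num
  · have hpi := Real.pi_pos
    have hc : 2 * Real.pi * t ≠ 0 := by positivity
    rw [intervalIntegral.integral_comp_mul_left (fun x => Real.cos x) hc, integral_cos,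
      Real.sinc_of_ne_zero (by positivity), smul_eq_mul]
    have e1 : 2 * Real.pi * t * (1 / 2) = Real.pi * t := by ring
    have e2 : 2 * Real.pi * t * -(1 / 2) = -(Real.pi * t) := by ring
    rw [e1, e2, Real.sin_neg]
    field_simp
    ring

lemma SM_herm {m : ℕ} (u : Fin m → ℝ) : (SM u).IsHermitian := by
  ext i j
  rw [Matrix.conjTranspose_apply, star_trivial]
  show Real.sinc (Real.pi * (pt u j - pt u i)) = Real.sinc (Real.pi * (pt u i - pt u j))
  rw [← Real.sinc_neg]
  congr 1
  ring

lemma SM_psd {m : ℕ} (u : Fin m → ℝ) : (SM u).PosSemidef := by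
  refine Matrix.PosSemidef.of_dotProduct_mulVec_nonneg (SM_herm u) fun x => ?_
  have h1 : star x ⬝ᵥ (SM u).mulVec x = ∑ i, ∑ j, x i * x j * Real.sinc (Real.pi * (pt u i - pt u j)) := by
    unfold dotProduct Matrix.mulVec dotProduct
    refine Finset.sum_congr rfl fun i _ => ?_
    rw [Finset.mul_sum]
    refine Finset.sum_congr rfl fun j _ => ?_
    rw [Pi.star_apply, star_trivial]
    show x i * (Real.sinc (Real.pi * (pt u i - pt u j)) * x j) = _
    ring
  have hI : ∀ i j, IntervalIntegrable (fun t : ℝ => x i * x j * Real.cos (2 * Real.pi * (pt u i - pt u j) * t))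
      volume (-(1 / 2)) (1 / 2) := fun i j => Continuous.intervalIntegrable (by fun_prop) _ _
  have h2 : ∑ i, ∑ j, x i * x j * Real.sinc (Real.pi * (pt u i - pt u j)) =
      ∫ t in (-(1 / 2) : ℝ)..(1 / 2), ∑ i, ∑ j, x i * x j * Real.cos (2 * Real.pi * (pt u i - pt u j) * t) := by
    rw [intervalIntegral.integral_finsetSum (fun i _ => by
      refine Continuous.intervalIntegrable ?_ _ _
      fun_prop)]
    refine Finset.sum_congr rfl fun i _ => ?_
    rw [intervalIntegral.integral_finsetSum (fun j _ => hI i j)]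
    refine Finset.sum_congr rfl fun j _ => ?_
    rw [intervalIntegral.integral_const_mul, sinc_int]
  rw [h1, h2]
  refine intervalIntegral.integral_nonneg (by norm_num) fun t _ => ?_
  have h3 : ∑ i, ∑ j, x i * x j * Real.cos (2 * Real.pi * (pt u i - pt u j) * t) =
      (∑ i, x i * Real.cos (2 * Real.pi * pt u i * t)) ^ 2 + (∑ i, x i * Real.sin (2 * Real.pi * pt u i * t)) ^ 2 := by
    rw [sq, sq, Finset.sum_mul_sum, Finset.sum_mul_sum, ← Finset.sum_add_distrib]
    refine Finset.sum_congr rfl fun i _ => ?_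
    rw [← Finset.sum_add_distrib]
    refine Finset.sum_congr rfl fun j _ => ?_
    have : 2 * Real.pi * (pt u i - pt u j) * t = 2 * Real.pi * pt u i * t - 2 * Real.pi * pt u j * t := by ring
    rw [this, Real.cos_sub]
    ring
  rw [h3]
  positivity

lemma det_nn {m : ℕ} (u : Fin m → ℝ) : 0 ≤ (SM u).det := (SM_psd u).det_nonneg

lemma det_le_one {m : ℕ} (u : Fin m → ℝ) : (SM u).det ≤ 1 := by
  have hA := (SM_psd u).1
  have h1 := hA.det_eq_prod_eigenvalues
  have h2 := hA.trace_eq_sum_eigenvalues
  have h3 : (SM u).trace = Fintype.card (Option (Fin m)) := by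
    have : ∀ i, SM u i i = 1 := by
      intro i
      show Real.sinc (Real.pi * (pt u i - pt u i)) = 1
      simp
    show ∑ i, SM u i i = _
    simp only [this]
    rw [Finset.sum_const, Finset.card_univ, nsmul_eq_mul, mul_one]
  have h4 : ∀ i, (0 : ℝ) ≤ hA.eigenvalues i := (SM_psd u).eigenvalues_nonneg
  have e1 : (SM u).det = ∏ i, hA.eigenvalues i := by
    rw [h1]
    rfl
  have e2 : ∑ i, hA.eigenvalues i = Fintype.card (Option (Fin m)) := by
    rw [← h3, h2]
    rfl
  rw [e1]
  calc ∏ i, hA.eigenvalues i ≤ ∏ i, Real.exp (hA.eigenvalues i - 1) :=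
        Finset.prod_le_prod (fun i _ => h4 i) fun i _ => by
          have := Real.add_one_le_exp (hA.eigenvalues i - 1)
          linarith
    _ = Real.exp (∑ i, (hA.eigenvalues i - 1)) := by rw [Real.exp_sum]
    _ = 1 := by
        rw [Finset.sum_sub_distrib, e2, Finset.sum_const, Finset.card_univ, nsmul_eq_mul, mul_one, sub_self,
          Real.exp_zero]

/-- the integral of the determinant over a power of a set -/
def JU (k : ℕ) (U : Set ℝ) : ℝ := ∫ u in Set.univ.pi (fun _ : Fin k => U), (SM u).det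

/-- the hole probability of the Palm sine process -/
def HU (U : Set ℝ) : ℝ := ∑' k : ℕ, (-1) ^ k / (Nat.factorial k : ℝ) * JU k U

lemma pi_int_bd {k : ℕ} (V : Fin k → Set ℝ) (hV : ∀ i, MeasurableSet (V i)) (c : Fin k → ℝ)
    (hc : ∀ i, volume (V i) ≤ ENNReal.ofReal (c i)) (hc0 : ∀ i, 0 ≤ c i) :
    0 ≤ ∫ u in Set.univ.pi V, (SM u).det ∧ ∫ u in Set.univ.pi V, (SM u).det ≤ ∏ i, c i := by
  constructor
  · exact setIntegral_nonneg (MeasurableSet.univ_pi hV) fun u _ => det_nn u
  · have hvol : volume (Set.univ.pi V) ≤ ENNReal.ofReal (∏ i, c i) := by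
      rw [volume_pi_pi, ENNReal.ofReal_prod_of_nonneg fun i _ => hc0 i]
      exact Finset.prod_le_prod' fun i _ => hc i
    have hfin : volume (Set.univ.pi V) ≠ ⊤ := (hvol.trans_lt ENNReal.ofReal_lt_top).ne
    calc ∫ u in Set.univ.pi V, (SM u).det ≤ ∫ _u in Set.univ.pi V, (1 : ℝ) := by
          refine setIntegral_mono_on ?_ ?_ (MeasurableSet.univ_pi hV) fun u _ => det_le_one u
          · refine Integrable.mono' (g := fun _ => (1 : ℝ)) ?_ det_cont.aestronglyMeasurable
              (ae_of_all _ fun u => ?_)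
            · exact integrableOn_const hfin
            · rw [Real.norm_of_nonneg (det_nn u)]
              exact det_le_one u
          · exact integrableOn_const hfin
      _ = (volume (Set.univ.pi V)).toReal := by
          rw [setIntegral_const, smul_eq_mul, mul_one, measureReal_def]
      _ ≤ ∏ i, c i := by
          refine ENNReal.toReal_le_of_le_ofReal (Finset.prod_nonneg fun i _ => hc0 i) hvol

lemma JU_bd (k : ℕ) {U : Set ℝ} (hU : MeasurableSet U) {c : ℝ} (hc0 : 0 ≤ c)
    (hc : volume U ≤ ENNReal.ofReal c) : 0 ≤ JU k U ∧ JU k U ≤ c ^ k := by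
  have h := pi_int_bd (fun _ : Fin k => U) (fun _ => hU) (fun _ => c) (fun _ => hc) (fun _ => hc0)
  rw [Finset.prod_const, Finset.card_univ, Fintype.card_fin] at h
  exact h

lemma HU_summable {U : Set ℝ} (hU : MeasurableSet U) {c : ℝ} (hc0 : 0 ≤ c)
    (hc : volume U ≤ ENNReal.ofReal c) :
    Summable fun k : ℕ => (-1) ^ k / (Nat.factorial k : ℝ) * JU k U := by
  refine Summable.of_norm_bounded (g := fun k : ℕ => c ^ k / (Nat.factorial k : ℝ))
    (Real.summable_pow_div_factorial c) fun k => ?_
  obtain ⟨h1, h2⟩ := JU_bd k hU hc0 hc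
  rw [norm_mul, norm_div, norm_pow, norm_neg, norm_one, one_pow, Real.norm_of_nonneg h1,
    Real.norm_of_nonneg (Nat.cast_nonneg _), div_mul_eq_mul_div, one_mul]
  gcongr

end

end Pool.Agent.J4.H44.KL
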